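import Pool.Agent.H708.SY.Grow

/-!
Families of one-forms of slow growth on balls of Schreier graphs.
-/

set_option autoImplicit false

open Set Filter Topology
open scoped Manifold ContDiff

noncomputable section

namespace Pool.Agent.H708.SYB

open Pool.Agent.Y501.SY Pool.Agent.Y455.SY Pool.Agent.Y484.SY Pool.Agent.Y658.SY

section

variable {d : ℕ} {Z X : Type} [TopologicalSpace Z] [ChartedSpace (E d) Z]
  [TopologicalSpace X] [ChartedSpace (E d) X]
  {G : Type} [Group G] [MulAction G Z] {P : Type} [MulAction G P]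

variable [IsManifold (𝓡 d) ∞ X]

/-- **Families of slow growth.** -/
theorem thm3 [CompactSpace X] [T2Space X] {pr : Z → X} (hpr : NormalCovering d G pr)
    {J : End d X} (hJ : IsAlmostComplex J) {σ : Form d X 2} (hσ : IsSmooth σ)
    (hσc : IsClosedForm σ) {S : Finset G} (hS : Generates S)
    {β : P → Form d Z 1} {η : P → Form d Z 2} (hf : EquivFamily G β η) (p₀ : P) {h : ℕ → ℝ}
    (hg : SlowGrowth (fun n => (ball S p₀ n).ncard) h) (hd : BallDominated S p₀ pr β h)
    (hweak : FamilyWeak G p₀ pr J (fun p => pull (d := d) pr σ + η p)) {N : ℕ → Set X}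
    (hN : ∀ i, ∀ z ∈ N i, Small J (N i) z)
    (hpos : FamilyPos G p₀ pr J (fun p => pull (d := d) pr σ + η p) N) :
    ClassTamed σ J := by
  classical
  choose m hm1 hm2 using fun k : ℕ => hg (1 / ((k : ℝ) + 1)) (by positivity) k
  set F : ℕ → Finset P := fun k => (ball_finite S p₀ (m k)).toFinset with hF
  have hFm : ∀ k p, p ∈ F k → p ∈ ball S p₀ (m k) := by
    intro k p hp
    exact (Set.Finite.mem_toFinset _).1 hp
  have hne : ∀ k, (F k).Nonempty := fun k =>
    ⟨p₀, (Set.Finite.mem_toFinset _).2 (mem_ball hS.one p₀ (m k))⟩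
  have hcard : ∀ k, ((F k).card : ℝ) = (ball S p₀ (m k)).ncard := by
    intro k
    exact_mod_cast (Set.ncard_eq_toFinset_card _ _).symm
  have hAI : AsympInvariant (S : Set G) pr (fun n => avg (F n) β) := by
    refine asymp_gen (fun s hs => hS.inv s hs) hf hne fun s hs z₀ ε hε => ?_
    obtain ⟨N, hN, A, hA0, hA⟩ := hd z₀
    refine ⟨N, hN, ?_⟩
    have hk : ∀ᶠ k : ℕ in atTop, 2 * A / ((k : ℝ) + 1) ≤ ε := by
      have h1 : Tendsto (fun k : ℕ => 2 * A / ((k : ℝ) + 1)) atTop (𝓝 0) :=
        (tendsto_const_div_atTop_nhds_zero_nat (2 * A)).comp (tendsto_add_atTop_nat 1) |>.congr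
          (fun n => by simp)
      filter_upwards [h1.eventually (gt_mem_nhds hε)] with k hk using hk.le
    filter_upwards [hk] with k hk z hz u
    obtain ⟨hs1, hs2⟩ := symm_card hS.one hs p₀ (m k)
    have hsz := size_nonneg pr z₀ z u
    have hnn : 0 ≤ A * h (m k + 1) * size pr z₀ z u :=
      (abs_nonneg _).trans (hA (m k + 1) p₀ (mem_ball hS.one p₀ _) z hz u)
    calc ∑ p ∈ symmDiff (F k) ((F k).image fun p => s • p), |β p z ![u]| ≤
        ∑ p ∈ symmDiff (F k) ((F k).image fun p => s • p),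
          A * h (m k + 1) * size pr z₀ z u :=
          Finset.sum_le_sum fun p hp => hA (m k + 1) p
            ((Set.Finite.mem_toFinset _).1 (hs1 hp)) z hz u
      _ = (symmDiff (F k) ((F k).image fun p => s • p)).card *
          (A * h (m k + 1) * size pr z₀ z u) := by rw [Finset.sum_const, nsmul_eq_mul]
      _ ≤ (2 * (((ball S p₀ (m k + 1)).ncard : ℝ) - (ball S p₀ (m k)).ncard)) *
          (A * h (m k + 1) * size pr z₀ z u) := mul_le_mul_of_nonneg_right hs2 hnn
      _ = 2 * A * size pr z₀ z u * (h (m k + 1) *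
          (((ball S p₀ (m k + 1)).ncard : ℝ) - (ball S p₀ (m k)).ncard)) := by ring
      _ ≤ 2 * A * size pr z₀ z u * (1 / ((k : ℝ) + 1) * (ball S p₀ (m k)).ncard) :=
          mul_le_mul_of_nonneg_left (hm2 k) (by positivity)
      _ = (2 * A / ((k : ℝ) + 1)) * ((F k).card * size pr z₀ z u) := by
          rw [hcard]; ring
      _ ≤ ε * ((F k).card * size pr z₀ z u) :=
          mul_le_mul_of_nonneg_right hk (by positivity)
      _ = (F k).card * (ε * size pr z₀ z u) := by ring
  refine thm1 hpr hJ hσ hσc (fun n => avg_smooth (F n) hf.smooth1)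
    (fun n => avg_smooth (F n) hf.smooth2) (fun n => avg_isD (F n) hf.smooth1 hf.isD) hS.gen hAI
    hN ⟨?_, ?_, ?_⟩
  · intro z₀
    refine ⟨univ, univ_mem, 0, Eventually.of_forall fun n z _ u u' hu => ?_⟩
    rw [zero_mul, neg_zero]
    exact avg_lower (hne n) fun p hp => hweak p (ball_orbit S p₀ _ (hFm n p hp)) z u u' hu
  · intro z u u' hu ε hε
    refine Eventually.of_forall fun n => ?_
    refine avg_lower (hne n) fun p hp => ?_
    exact le_trans (by linarith) (hweak p (ball_orbit S p₀ _ (hFm n p hp)) z u u' hu)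
  · intro z hz u u' hu0 hu
    obtain ⟨c, hc, hc1⟩ := hpos z hz u u' hu0 hu
    exact ⟨c, hc, Eventually.of_forall fun n =>
      avg_lower (hne n) fun p hp => hc1 p (ball_orbit S p₀ _ (hFm n p hp))⟩

end

end Pool.Agent.H708.SYB
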