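import Pool.Agent.H708.SY.Ball

/-!
The converse, and families of translates of a single one-form.
-/

set_option autoImplicit false

open Set Filter Topology
open scoped Manifold ContDiff

noncomputable section

namespace Pool.Agent.H708.SYB

open Pool.Agent.Y501.SY Pool.Agent.Y455.SY Pool.Agent.Y484.SY Pool.Agent.Y658.SY

section

variable {d : ℕ} {Z Y : Type} [TopologicalSpace Z] [ChartedSpace (E d) Z]
  [TopologicalSpace Y] [ChartedSpace (E d) Y]

theorem pull1_app (f : Z → Y) (β : Form d Y 1) (z : Z) (u : TangentSpace (𝓡 d) z) :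
    pull1 (d := d) f β z ![u] = β (f z) ![mfderiv (𝓡 d) (𝓡 d) f z u] := by
  have h : (fun i : Fin 1 => (mfderiv (𝓡 d) (𝓡 d) f z : TangentSpace (𝓡 d) z →
      TangentSpace (𝓡 d) (f z)) ((![u] : Fin 1 → TangentSpace (𝓡 d) z) i)) =
      ![mfderiv (𝓡 d) (𝓡 d) f z u] := by
    funext i
    fin_cases i
    rfl
  exact congrArg (β (f z)) h

theorem pb_pull1 {f : Z → Y} (hf : ContMDiff (𝓡 d) (𝓡 d) ∞ f) (β : Form d Y 1)
    {U : Set (E d)} {φ : E d → Z} (hU : IsOpen U) (hφ : ContMDiffOn (𝓡 d) (𝓡 d) ∞ φ U)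
    {p : E d} (hp : p ∈ U) : pb φ (pull1 (d := d) f β) p = pb (f ∘ φ) β p := by
  rw [pb_comp β ((hf (φ p)).mdifferentiableAt (by simp))
    ((hφ.contMDiffAt (hU.mem_nhds hp)).mdifferentiableAt (by simp))]
  rfl

theorem pb_pull2 {f : Z → Y} (hf : ContMDiff (𝓡 d) (𝓡 d) ∞ f) (β : Form d Y 2)
    {U : Set (E d)} {φ : E d → Z} (hU : IsOpen U) (hφ : ContMDiffOn (𝓡 d) (𝓡 d) ∞ φ U)
    {p : E d} (hp : p ∈ U) : pb φ (pull (d := d) f β) p = pb (f ∘ φ) β p := by
  rw [pb_comp β ((hf (φ p)).mdifferentiableAt (by simp))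
    ((hφ.contMDiffAt (hU.mem_nhds hp)).mdifferentiableAt (by simp))]
  rfl

theorem smooth_pull1 {f : Z → Y} (hf : ContMDiff (𝓡 d) (𝓡 d) ∞ f) {β : Form d Y 1}
    (h : IsSmooth β) : IsSmooth (pull1 (d := d) f β) := by
  intro U φ hU hφ
  exact (h U (f ∘ φ) hU (hf.comp_contMDiffOn hφ)).congr fun p hp => pb_pull1 hf β hU hφ hp

theorem smooth_pull2 {f : Z → Y} (hf : ContMDiff (𝓡 d) (𝓡 d) ∞ f) {β : Form d Y 2}
    (h : IsSmooth β) : IsSmooth (pull (d := d) f β) := by
  intro U φ hU hφ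
  exact (h U (f ∘ φ) hU (hf.comp_contMDiffOn hφ)).congr fun p hp => pb_pull2 hf β hU hφ hp

theorem isD_pull {f : Z → Y} (hf : ContMDiff (𝓡 d) (𝓡 d) ∞ f) {β : Form d Y 1}
    {η : Form d Y 2} (h : IsD β η) : IsD (pull1 (d := d) f β) (pull (d := d) f η) := by
  intro U φ hU hφ p hp
  have h1 : pb φ (pull1 (d := d) f β) =ᶠ[𝓝 p] pb (f ∘ φ) β := by
    filter_upwards [hU.mem_nhds hp] with q hq using pb_pull1 hf β hU hφ hq
  rw [h1.extDeriv_eq, pb_pull2 hf η hU hφ hp]
  exact h U (f ∘ φ) hU (hf.comp_contMDiffOn hφ) p hp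

end

section

variable {d : ℕ} {Z X : Type} [TopologicalSpace Z] [ChartedSpace (E d) Z]
  [TopologicalSpace X] [ChartedSpace (E d) X]
  {G : Type} [Group G] [MulAction G Z]

/-- the value of a two-form -/
def e2 (b : Form d Z 2) (z : Z) (u v : E d) : ℝ := b z ![u, v]

theorem pull_e2 (pr : Z → X) (ρ : Form d X 2) (z : Z) (u v : E d) :
    e2 (pull (d := d) pr ρ) z u v = e2 ρ (pr z) (dp pr z u) (dp pr z v) := pull_app pr ρ z u v

theorem pull1_e1 (pr : Z → X) (ρ : Form d X 1) (z : Z) (u : E d) :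
    e1 (pull1 (d := d) pr ρ) z u = e1 ρ (pr z) (dp pr z u) := pull1_app pr ρ z u

variable [IsManifold (𝓡 d) ∞ X]

omit [IsManifold (𝓡 d) ∞ X] in
/-- The converse: a symplectic form in the class taming `J` gives a constant sequence of
primitives. -/
theorem conv {pr : Z → X} (hpr : NormalCovering d G pr)
    {J : End d X} {σ : Form d X 2} (h : ClassTamed σ J) :
    ∃ (b : Form d Z 1) (c : Form d Z 2), IsSmooth b ∧ IsSmooth c ∧ IsD b c ∧
      AsympInvariant (univ : Set G) pr (fun _ => b) ∧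
      TamesInLimit pr J (fun _ => pull (d := d) pr σ + c) (fun _ => ∅) := by
  obtain ⟨α, ρ, h1, h2, h3, h4, h5, h6, -⟩ := h
  have hs : ContMDiff (𝓡 d) (𝓡 d) ∞ pr := hpr.diffeo.contMDiff
  have hval : ∀ (z : Z) (u u' : TangentSpace (𝓡 d) z), IsLift pr J z u u' →
      (pull (d := d) pr σ + pull (d := d) pr ρ) z ![u, u'] =
      (σ + ρ) (pr z) ![mfderiv (𝓡 d) (𝓡 d) pr z u, J (pr z) (mfderiv (𝓡 d) (𝓡 d) pr z u)] := by
    intro z u u' hu
    have e1 : (pull (d := d) pr σ + pull (d := d) pr ρ) z ![u, u'] =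
      pull (d := d) pr σ z ![u, u'] + pull (d := d) pr ρ z ![u, u'] := rfl
    rw [e1, pull_app, pull_app, hu]
    rfl
  have hinj : ∀ (z : Z) (u : TangentSpace (𝓡 d) z), u ≠ 0 →
      mfderiv (𝓡 d) (𝓡 d) pr z u ≠ 0 := by
    intro z u hu h0
    obtain ⟨t, ht⟩ := exists_sec hpr.diffeo z
    have e1 := mfderiv_comp z (t.mdiff (t.mapsV z ht)) (mdiffPr hpr.diffeo z)
    have e2 : t.s ∘ pr =ᶠ[𝓝 z] id := by
      filter_upwards [t.openW.mem_nhds ht] with y hy using t.inv y hy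
    rw [e2.mfderiv_eq, mfderiv_id] at e1
    apply hu
    have e3 := congrArg (fun L : E d →L[ℝ] E d => L u) e1
    refine e3.trans ?_
    change (mfderiv (𝓡 d) (𝓡 d) t.s (pr z) : E d →L[ℝ] E d)
      ((mfderiv (𝓡 d) (𝓡 d) pr z : E d →L[ℝ] E d) u) = 0
    have e4 : (mfderiv (𝓡 d) (𝓡 d) pr z : E d →L[ℝ] E d) u = 0 := h0
    rw [e4, map_zero]
  have hnn : ∀ (z : Z) (u u' : TangentSpace (𝓡 d) z), IsLift pr J z u u' →
      0 ≤ (pull (d := d) pr σ + pull (d := d) pr ρ) z ![u, u'] := by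
    intro z u u' hu
    rw [hval z u u' hu]
    by_cases h0 : mfderiv (𝓡 d) (𝓡 d) pr z u = 0
    · rw [h0]
      exact le_of_eq (ContinuousAlternatingMap.map_coord_zero _ (0 : Fin 2) rfl).symm
    · exact (h6 (pr z) _ h0).le
  refine ⟨pull1 (d := d) pr α, pull (d := d) pr ρ, smooth_pull1 hs h1, smooth_pull2 hs h2,
    isD_pull hs h3, ?_, ?_, ?_, ?_⟩
  · have e3 : ∀ (g : G) (z : Z) (u : E d),
        e1 (pull1 (d := d) pr α) (g • z) (pu g z u) - e1 (pull1 (d := d) pr α) z u = 0 := by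
      intro g z u
      rw [pull1_e1, pull1_e1, dp_pu hpr, pr_smul hpr, sub_self]
    constructor
    · intro g _ z₀
      refine ⟨univ, univ_mem, 0, Eventually.of_forall fun n z _ u => ?_⟩
      have e4 : |e1 (pull1 (d := d) pr α) (g • z) (pu g z u) - e1 (pull1 (d := d) pr α) z u| ≤
          0 * size (d := d) pr z₀ z u := by
        rw [e3, abs_zero, zero_mul]
      exact e4
    · intro g _ z u
      have e4 : Tendsto (fun _ : ℕ => e1 (pull1 (d := d) pr α) (g • z) (pu g z u) -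
          e1 (pull1 (d := d) pr α) z u) atTop (𝓝 0) := by
        rw [e3]
        exact tendsto_const_nhds
      exact e4
  · intro z₀
    refine ⟨univ, univ_mem, 0, Eventually.of_forall fun n z _ u u' hu => ?_⟩
    rw [zero_mul, neg_zero]
    exact hnn z u u' hu
  · intro z u u' hu ε hε
    exact Eventually.of_forall fun n => le_trans (by linarith) (hnn z u u' hu)
  · intro z _ u u' hu0 hu
    refine ⟨_, ?_, Eventually.of_forall fun n => le_rfl⟩
    rw [hval z u u' hu]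
    exact h6 (pr z) _ (hinj z u hu0)

end

section

variable {G : Type} [Group G]

theorem ball_mul {S : Finset G} (n : ℕ) {g s : G} (hg : g ∈ ball S (1 : G) n) (hs : s ∈ S) :
    g * s ∈ ball S (1 : G) (n + 1) := by
  induction n generalizing g with
  | zero =>
    have : g = 1 := hg
    rw [this, one_mul]
    exact ⟨s, hs, 1, mem_singleton _, mul_one s⟩
  | succ n ih =>
    obtain ⟨t, ht, q, hq, rfl⟩ := hg
    exact ⟨t, ht, q * s, ih hq, (mul_assoc t q s).symm⟩

theorem ball_inv {S : Finset G} (hS : ∀ s ∈ S, s⁻¹ ∈ S) (n : ℕ) {g : G}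
    (hg : g ∈ ball S (1 : G) n) : g⁻¹ ∈ ball S (1 : G) n := by
  induction n generalizing g with
  | zero =>
    have : g = 1 := hg
    rw [this, inv_one]
    exact mem_singleton _
  | succ n ih =>
    obtain ⟨t, ht, q, hq, rfl⟩ := hg
    rw [smul_eq_mul, mul_inv_rev]
    exact ball_mul n (ih hq) (hS t ht)

end

section

variable {d : ℕ} {Z X : Type} [TopologicalSpace Z] [ChartedSpace (E d) Z]
  [TopologicalSpace X] [ChartedSpace (E d) X]
  {G : Type} [Group G] [MulAction G Z]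

theorem isLift_pu {pr : Z → X} (hpr : NormalCovering d G pr) {J : End d X} (g : G) (z : Z)
    {u u' : TangentSpace (𝓡 d) z} (h : IsLift pr J z u u') :
    IsLift pr J (g • z) (push g z u) (push g z u') := by
  have h1 : dp pr (g • z) (pu g z u) = dp pr z u := dp_pu hpr g z u
  have h2 : dp pr (g • z) (pu g z u') = dp pr z u' := dp_pu hpr g z u'
  have h3 : dp pr z u' = JE J (pr z) (dp pr z u) := h
  change dp pr (g • z) (pu g z u') = JE J (pr (g • z)) (dp pr (g • z) (pu g z u))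
  rw [h1, h2, h3]
  have h4 : ∀ (y : X), y = pr z → JE J (pr z) (dp pr z u) = JE J y (dp pr z u) := by
    rintro y rfl
    rfl
  exact h4 _ (pr_smul hpr g z)

theorem trans_val {pr : Z → X} (hpr : NormalCovering d G pr) (σ : Form d X 2) (η : Form d Z 2)
    (g : G) (z : Z) (u u' : TangentSpace (𝓡 d) z) :
    (pull (d := d) pr σ + pull (d := d) (fun z : Z => g • z) η) z ![u, u'] =
      (pull (d := d) pr σ + η) (g • z) ![push g z u, push g z u'] := by
  have h1 : (pull (d := d) pr σ + pull (d := d) (fun z : Z => g • z) η) z ![u, u'] =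
      e2 (pull (d := d) pr σ) z u u' + pull (d := d) (fun z : Z => g • z) η z ![u, u'] := rfl
  have h2 : (pull (d := d) pr σ + η) (g • z) ![push g z u, push g z u'] =
      e2 (pull (d := d) pr σ) (g • z) (pu g z u) (pu g z u') +
        η (g • z) ![push g z u, push g z u'] := rfl
  rw [h1, h2, pull_app, pull_e2, pull_e2, dp_pu hpr, dp_pu hpr, pr_smul hpr]
  rfl

variable [IsManifold (𝓡 d) ∞ X]

/-- **A single one-form of slow growth.** -/
theorem thm4 [CompactSpace X] [T2Space X] {pr : Z → X} (hpr : NormalCovering d G pr)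
    {J : End d X} (hJ : IsAlmostComplex J) {σ : Form d X 2} (hσ : IsSmooth σ)
    (hσc : IsClosedForm σ) {S : Finset G} (hS : Generates S)
    {β : Form d Z 1} {η : Form d Z 2} (hβ : IsSmooth β) (hη : IsSmooth η) (hβη : IsD β η)
    {h : ℕ → ℝ} (hg : SlowGrowth (fun n => (ball S (1 : G) n).ncard) h)
    (hd : GrowthAt S pr β h) (hweak : WeaklyTames pr J (pull (d := d) pr σ + η))
    {N : ℕ → Set X} (hN : ∀ i, ∀ z ∈ N i, Small J (N i) z)
    (hpos : UnifTamesOff G pr J (pull (d := d) pr σ + η) N) :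
    ClassTamed σ J := by
  have hf : EquivFamily G (P := G) (fun g : G => pull1 (d := d) (fun z : Z => g⁻¹ • z) β)
      (fun g : G => pull (d := d) (fun z : Z => g⁻¹ • z) η) := by
    refine ⟨fun g => smooth_pull1 (hpr.smooth g⁻¹) hβ, fun g => smooth_pull2 (hpr.smooth g⁻¹) hη,
      fun g => isD_pull (hpr.smooth g⁻¹) hβη, fun g p z u => ?_⟩
    have h1 : ∀ (g : G) (z : Z) (u : E d), e1 (pull1 (d := d) (fun z : Z => g • z) β) z u =
        e1 β (g • z) (pu g z u) := fun g z u => pull1_app (fun z : Z => g • z) β z u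
    have h2 : e1 (pull1 (d := d) (fun z : Z => (g • p)⁻¹ • z) β) (g • z) (pu g z u) =
        e1 (pull1 (d := d) (fun z : Z => p⁻¹ • z) β) z u := by
      rw [h1, h1, ← pu_mul hpr, ← mul_smul, smul_eq_mul, mul_inv_rev, inv_mul_cancel_right]
    exact h2
  refine thm3 hpr hJ hσ hσc hS hf (1 : G) hg ?_ ?_ hN ?_
  · intro z₀
    obtain ⟨N, hN, A, hA0, hA⟩ := hd z₀
    refine ⟨N, hN, A, hA0, fun n g hg z hz u => ?_⟩
    have h1 := hA n g⁻¹ (ball_inv hS.inv n hg) z hz u
    have h2 : pull1 (d := d) (fun z : Z => g⁻¹ • z) β z ![u] =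
        β (g⁻¹ • z) ![push g⁻¹ z u] := pull1_app (fun z : Z => g⁻¹ • z) β z u
    rw [h2]
    exact h1
  · intro g _ z u u' hu
    refine le_of_le_of_eq ?_ (trans_val hpr σ η g⁻¹ z u u').symm
    exact hweak _ _ _ (isLift_pu hpr g⁻¹ z hu)
  · intro z hz u u' hu0 hu
    obtain ⟨c, hc, h1⟩ := hpos z hz u u' hu0 hu
    refine ⟨c, hc, fun g _ => ?_⟩
    exact le_of_le_of_eq (h1 g⁻¹) (trans_val hpr σ η g⁻¹ z u u').symm

/-- **Sublinear primitives on coverings of polynomial growth.** -/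
theorem thm5 [CompactSpace X] [T2Space X] {pr : Z → X} (hpr : NormalCovering d G pr)
    {J : End d X} (hJ : IsAlmostComplex J) {σ : Form d X 2} (hσ : IsSmooth σ)
    (hσc : IsClosedForm σ) {S : Finset G} (hS : Generates S) {A : ℝ} {D : ℕ}
    (hA : ∀ n : ℕ, ((ball S (1 : G) n).ncard : ℝ) ≤ A * ((n : ℝ) + 1) ^ D)
    {β : Form d Z 1} {η : Form d Z 2} (hβ : IsSmooth β) (hη : IsSmooth η) (hβη : IsD β η)
    {h : ℕ → ℝ} (hl : Tendsto (fun n => h n / n) atTop (𝓝 0))
    (hd : GrowthAt S pr β h) (hweak : WeaklyTames pr J (pull (d := d) pr σ + η))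
    {N : ℕ → Set X} (hN : ∀ i, ∀ z ∈ N i, Small J (N i) z)
    (hpos : UnifTamesOff G pr J (pull (d := d) pr σ + η) N) :
    ClassTamed σ J := by
  have h1 : ∀ n, 1 ≤ (ball S (1 : G) n).ncard := by
    intro n
    exact (Set.ncard_pos (ball_finite S (1 : G) n)).2 ⟨1, mem_ball hS.one 1 n⟩
  refine thm4 hpr hJ hσ hσc hS hβ hη hβη (slow_of_poly h1 hA hl) ?_ hweak hN hpos
  intro z₀
  obtain ⟨U, hU, A', hA0, hA'⟩ := hd z₀
  refine ⟨U, hU, A', hA0, fun n g hg z hz u => (hA' n g hg z hz u).trans ?_⟩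
  have hsz := size_nonneg pr z₀ z u
  gcongr
  exact le_max_left _ _

end

end Pool.Agent.H708.SYB
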