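import Pool.Agent.H708.SY.PubV
import Pool.Agent.H708.SY.Single
import Pool.Graph.R_seed8.Y501.SY.BridgeT
import Pool.Graph.R_seed8.Y501.SY.BridgeU

/-!
Unbounded primitives on coverings: comparison of the definitions.
-/

set_option autoImplicit false

open Set Filter Topology
open scoped Manifold ContDiff

noncomputable section

namespace Pool.Agent.H708.SYC

open Pool.Agent.Y501.SYP

attribute [local instance] cs mf

variable {d : ℕ} {Z X : Type} [TopologicalSpace Z] [ChartedSpace (ES d) Z]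
  [TopologicalSpace X] [ChartedSpace (ES d) X]
  {G : Type} [Group G] [MulAction G Z] {P : Type} [MulAction G P]

theorem cov_of {pr : Z → X} (h : NormalCovering (ES d) G pr) :
    SYB.NormalCovering d (Z := Z) (X := X) G pr := ⟨h.smooth, h.diffeo, h.surj, h.orbits⟩

theorem classTamed_of {σ : Form (ES d) X 2} {J : End (ES d) X}
    (h : SYB.ClassTamed (d := d) (X := X) σ J) : ClassTamed σ J := by
  obtain ⟨α, ρ, h1, h2, h3, h4, h5, h6, -⟩ := h
  exact ⟨α, ρ, ⟨(smooth_iff α).2 h1, (smooth_iff ρ).2 h2, (isD_iff α ρ).2 h3⟩,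
    symp_of ((smooth_iff _).2 h4) ((closed_iff _).2 h5) h6⟩

theorem classTamed_to {σ : Form (ES d) X 2} {J : End (ES d) X}
    (h : ClassTamed σ J) : SYB.ClassTamed (d := d) (X := X) σ J := by
  obtain ⟨α, ρ, h1, h2⟩ := h
  exact ⟨α, ρ, (smooth_iff α).1 h1.smooth1, (smooth_iff ρ).1 h1.smooth2, (isD_iff α ρ).1 h1.isD,
    (smooth_iff _).1 h2.smooth, (closed_iff _).1 h2.closed, h2.tames, h2.nondeg⟩

theorem small_of [IsManifold 𝓘(ℝ, ES d) ∞ X] [T2Space X] {J : End (ES d) X}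
    (hJ : IsAlmostComplex J) {N : ℕ → Set X} (h : SmallSets J N) :
    ∀ i, ∀ x ∈ N i, SYB.Small (d := d) (X := X) J (N i) x := by
  intro i x hx
  obtain ⟨n, a, b, U, hU, ha, hb, hnull, hpos⟩ := smallAll_of hJ (h i x hx)
  exact Or.inr (Or.inr ⟨n, a, b, U, hU, ha, hb, hnull, fun v hv _ => hpos v hv rfl rfl⟩)

theorem limit_of {pr : Z → X} {J : End (ES d) X} {w : ℕ → Form (ES d) Z 2} {N : ℕ → Set X}
    (h : TamesInLimit pr J w N) : SYB.TamesInLimit (d := d) (Z := Z) (X := X) pr J w N :=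
  ⟨h.bdd, h.nonneg, h.pos⟩

theorem limit_to {pr : Z → X} {J : End (ES d) X} {w : ℕ → Form (ES d) Z 2} {N : ℕ → Set X}
    (h : SYB.TamesInLimit (d := d) (Z := Z) (X := X) pr J w N) : TamesInLimit pr J w N :=
  ⟨h.bdd, h.nonneg, h.pos⟩

theorem asymp_of {pr : Z → X} {b : ℕ → Form (ES d) Z 1} (h : AsympInvariant G pr b) :
    SYB.AsympInvariant (d := d) (Z := Z) (X := X) (univ : Set G) pr b :=
  ⟨fun g _ => h.bdd g, fun g _ => h.lim g⟩

theorem asymp_to {pr : Z → X} {b : ℕ → Form (ES d) Z 1}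
    (h : SYB.AsympInvariant (d := d) (Z := Z) (X := X) (univ : Set G) pr b) :
    AsympInvariant G pr b :=
  ⟨fun g => h.bdd g (mem_univ g), fun g => h.lim g (mem_univ g)⟩

theorem family_of {β : P → Form (ES d) Z 1} {η : P → Form (ES d) Z 2}
    (h : EquivFamily G β η) : SYB.EquivFamily (d := d) (Z := Z) G β η :=
  ⟨fun p => (smooth_iff _).1 (h.prim p).smooth1, fun p => (smooth_iff _).1 (h.prim p).smooth2,
    fun p => (isD_iff _ _).1 (h.prim p).isD, h.equiv⟩

theorem folner_of {S : Set G} {h : P → ℝ} {F : ℕ → Finset P} (hF : WeightedFolner S h F) :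
    SYB.WeightedFolner S h F := ⟨hF.nonempty, hF.small⟩

theorem ball_eq (S : Finset G) (p₀ : P) (n : ℕ) : ball S p₀ n = SYB.ball S p₀ n := by
  induction n with
  | zero => rfl
  | succ n ih =>
    show {p | ∃ s ∈ S, ∃ q ∈ ball S p₀ n, s • q = p} = {p | ∃ s ∈ S, ∃ q ∈ SYB.ball S p₀ n, s • q = p}
    rw [ih]

theorem generates_of {S : Finset G} (h : Generates S) : SYB.Generates S := ⟨h.one, h.inv, h.gen⟩

theorem avg_eq {k : ℕ} (F : Finset P) (β : P → Form (ES d) Z k) :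
    avg F β = SYB.avg (d := d) (Z := Z) F β := by
  funext z
  have h : (∑ p ∈ F, β p : Form (ES d) Z k) z = ∑ p ∈ F, β p z := Finset.sum_apply z F β
  exact congrArg (fun t => (F.card : ℝ)⁻¹ • t) h.symm

variable [IsManifold 𝓘(ℝ, ES d) ∞ X] [CompactSpace X] [T2Space X]

theorem part1 {pr : Z → X} (hpr : NormalCovering (ES d) G pr) {J : End (ES d) X}
    (hJ : IsAlmostComplex J) {σ : Form (ES d) X 2} (hσ : IsSmooth σ) (hσc : IsClosedForm σ) :
    ClassTamed σ J ↔ ∃ (b : ℕ → Form (ES d) Z 1) (c : ℕ → Form (ES d) Z 2) (N : ℕ → Set X),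
      (∀ n, Primitive (b n) (c n)) ∧ AsympInvariant G pr b ∧ SmallSets J N ∧
      TamesInLimit pr J (fun n => addF (lift pr σ) (c n)) N := by
  constructor
  · intro h
    obtain ⟨b, c, h1, h2, h3, h4, h5⟩ := SYB.conv (cov_of hpr) (classTamed_to h)
    exact ⟨fun _ => b, fun _ => c, fun _ => ∅,
      fun _ => ⟨(smooth_iff _).2 h1, (smooth_iff _).2 h2, (isD_iff _ _).2 h3⟩, asymp_to h4,
      fun _ x hx => absurd hx (notMem_empty x), limit_to h5⟩
  · rintro ⟨b, c, N, h1, h2, h3, h4⟩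
    exact classTamed_of (SYB.thm1 (cov_of hpr) (ac_of J hJ) ((smooth_iff σ).1 hσ)
      ((closed_iff σ).1 hσc) (fun n => (smooth_iff _).1 (h1 n).smooth1)
      (fun n => (smooth_iff _).1 (h1 n).smooth2) (fun n => (isD_iff _ _).1 (h1 n).isD)
      Submonoid.closure_univ (asymp_of h2) (small_of hJ h3) (limit_of h4))

theorem part2 {pr : Z → X} (hpr : NormalCovering (ES d) G pr) {J : End (ES d) X}
    (hJ : IsAlmostComplex J) {σ : Form (ES d) X 2} (hσ : IsSmooth σ) (hσc : IsClosedForm σ)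
    {S : Set G} (hS : Submonoid.closure S = ⊤) (hSi : ∀ s ∈ S, s⁻¹ ∈ S)
    {β : P → Form (ES d) Z 1} {η : P → Form (ES d) Z 2} (hf : EquivFamily G β η) {h : P → ℝ}
    {F : ℕ → Finset P} (hF : WeightedFolner S h F) (hd : Dominated pr β h)
    {N : ℕ → Set X} (hN : SmallSets J N)
    (hlim : TamesInLimit pr J (fun n => addF (lift pr σ) (avg (F n) η)) N) :
    ClassTamed σ J := by
  have hlim' : TamesInLimit pr J (fun n => addF (lift pr σ) (SYB.avg (d := d) (Z := Z) (F n) η)) N := by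
    have : (fun n => addF (lift pr σ) (avg (F n) η)) =
        fun n => addF (lift pr σ) (SYB.avg (d := d) (Z := Z) (F n) η) := by
      funext n
      rw [avg_eq]
    rwa [this] at hlim
  exact classTamed_of (SYB.thm2 (cov_of hpr) (ac_of J hJ) ((smooth_iff σ).1 hσ)
    ((closed_iff σ).1 hσc) hS hSi (family_of hf) (folner_of hF) hd (small_of hJ hN)
    (limit_of hlim'))

theorem part3 {pr : Z → X} (hpr : NormalCovering (ES d) G pr) {J : End (ES d) X}
    (hJ : IsAlmostComplex J) {σ : Form (ES d) X 2} (hσ : IsSmooth σ) (hσc : IsClosedForm σ)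
    {S : Finset G} (hS : Generates S)
    {β : P → Form (ES d) Z 1} {η : P → Form (ES d) Z 2} (hf : EquivFamily G β η) (p₀ : P)
    {h : ℕ → ℝ} (hg : SlowGrowth (fun n => (ball S p₀ n).ncard) h)
    (hd : BallDominated S p₀ pr β h) {N : ℕ → Set X} (hN : SmallSets J N)
    (hpos : FamilyTames G p₀ pr J (fun p => addF (lift pr σ) (η p)) N) :
    ClassTamed σ J := by
  have hg' : SYB.SlowGrowth (fun n => (SYB.ball S p₀ n).ncard) h := by
    simp only [ball_eq] at hg
    exact hg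
  have hd' : SYB.BallDominated (d := d) (Z := Z) (X := X) S p₀ pr β h := by
    intro z₀
    obtain ⟨U, hU, A, hA0, hA⟩ := hd z₀
    exact ⟨U, hU, A, hA0, fun n p hp z hz u => hA n p (by rw [ball_eq]; exact hp) z hz u⟩
  exact classTamed_of (SYB.thm3 (cov_of hpr) (ac_of J hJ) ((smooth_iff σ).1 hσ)
    ((closed_iff σ).1 hσc) (generates_of hS) (family_of hf) p₀ hg' hd' hpos.weak
    (small_of hJ hN) hpos.pos)

theorem part4 {pr : Z → X} (hpr : NormalCovering (ES d) G pr) {J : End (ES d) X}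
    (hJ : IsAlmostComplex J) {σ : Form (ES d) X 2} (hσ : IsSmooth σ) (hσc : IsClosedForm σ)
    {S : Finset G} (hS : Generates S) {A : ℝ} {D : ℕ}
    (hA : ∀ n : ℕ, ((ball S (1 : G) n).ncard : ℝ) ≤ A * ((n : ℝ) + 1) ^ D)
    {β : Form (ES d) Z 1} {η : Form (ES d) Z 2} (hβ : Primitive β η)
    {h : ℕ → ℝ} (hl : Tendsto (fun n => h n / n) atTop (𝓝 0)) (hd : GrowthAt S pr β h)
    {N : ℕ → Set X} (hN : SmallSets J N) (hpos : OrbitTames G pr J (addF (lift pr σ) η) N) :
    ClassTamed σ J := by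
  have hd' : SYB.GrowthAt (d := d) (Z := Z) (X := X) S pr β h := by
    intro z₀
    obtain ⟨U, hU, A, hA0, hA⟩ := hd z₀
    exact ⟨U, hU, A, hA0, fun n p hp z hz u => hA n p (by rw [ball_eq]; exact hp) z hz u⟩
  exact classTamed_of (SYB.thm5 (cov_of hpr) (ac_of J hJ) ((smooth_iff σ).1 hσ)
    ((closed_iff σ).1 hσc) (generates_of hS) (A := A) (D := D)
    (fun n => by rw [← ball_eq]; exact hA n) ((smooth_iff β).1 hβ.smooth1)
    ((smooth_iff η).1 hβ.smooth2) ((isD_iff β η).1 hβ.isD) hl hd' hpos.weak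
    (small_of hJ hN) hpos.pos)

end Pool.Agent.H708.SYC
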