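import Pool.Agent.H708.SY.Sect
import Pool.Graph.R_pool_sql_team_seeded_63374d34.N312.BU.Bridge

/-!
Asymptotically invariant primitives: the main step.
-/

set_option autoImplicit false

open Set Filter Topology
open scoped Manifold ContDiff

noncomputable section

namespace Pool.Agent.H708.SYB

open Pool.Agent.Y501.SY Pool.Agent.Y455.SY Pool.Agent.Y484.SY Pool.Agent.Y658.SY

section

variable {d : ℕ} {X : Type} [TopologicalSpace X] [ChartedSpace (E d) X]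
  [IsManifold (𝓡 d) ∞ X]

theorem smul_smooth {k : ℕ} {u : X → ℝ} (hu : SmoothFun (d := d) u) {θ : Form d X k}
    (hθ : IsSmooth θ) : IsSmooth (fun x => u x • θ x : Form d X k) := by
  intro U φ hU hφ
  exact (comp_smooth hφ hu).smul (hθ U φ hU hφ)

theorem smooth_dfdg' {f g : X → ℝ} (hf : SmoothFun (d := d) f) (hg : SmoothFun (d := d) g) :
    IsSmooth (dfdg (d := d) f g) :=
  ((Pair.gen f g hf hg).props Pool.Agent.Y484.SY.t_GEN).2.1

/-- A smooth two-form (not necessarily closed) taming `J`. -/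
theorem exists_kappa [CompactSpace X] [T2Space X] {J : End d X} (hJ : IsAlmostComplex J) :
    ∃ κ : Form d X 2, IsSmooth κ ∧ ∀ x, TamesAt κ J x := by
  classical
  have h1 : ∀ z : X, ∃ (u : X → ℝ) (θ : Form d X 2), SmoothFun (d := d) u ∧ IsSmooth θ ∧
      (∀ x, 0 ≤ u x) ∧ 0 < u z ∧ ∀ x, u x ≠ 0 → TamesAt θ J x := by
    intro z
    obtain ⟨g, B, hg, hB⟩ := Pool.Agent.Y363.SY.t_LOCAL d X J hJ z
    have hθ : IsSmooth (∑ j, ∑ k, B j k • dfdg (d := d) (g j) (g k)) :=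
      IsSmooth.sum _ fun j _ => IsSmooth.sum _ fun k _ => (smooth_dfdg' (hg j) (hg k)).smul _
    have hnear := TamesAt.nhds Pool.Agent.Y455.SY.t_PERT hJ hθ hB
    obtain ⟨f, hf⟩ := (SmoothBumpFunction.nhds_basis_support (I := 𝓡 d) hnear).ex_mem
    refine ⟨f, _, f.contMDiff, hθ, fun y => f.nonneg, by rw [f.eq_one]; exact one_pos,
      fun y hy => hf (subset_tsupport _ hy)⟩
  choose u θ hu hθ hu0 huz hut using h1
  obtain ⟨t, -, ht⟩ := isCompact_univ.elim_nhds_subcover (fun z : X => {y | 0 < u z y})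
    (fun z _ => (isOpen_lt continuous_const (hu z).continuous).mem_nhds (huz z))
  refine ⟨∑ z ∈ t, (fun x => u z x • θ z x : Form d X 2),
    IsSmooth.sum _ fun z _ => smul_smooth (hu z) (hθ z), fun x v hv => ?_⟩
  rw [sum_apply2]
  have h2 : ∀ z ∈ t, 0 ≤ (fun x => u z x • θ z x : Form d X 2) x ![v, J x v] := by
    intro z _
    change 0 ≤ u z x * θ z x ![v, J x v]
    by_cases h : u z x = 0
    · rw [h, zero_mul]
    · exact mul_nonneg (hu0 z x) (hut z x h v hv).le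
  obtain ⟨z, hz, hzx⟩ := mem_iUnion₂.1 (ht (mem_univ x))
  have hzx' : 0 < u z x := hzx
  refine lt_of_lt_of_le ?_ (Finset.single_le_sum h2 hz)
  change 0 < u z x * θ z x ![v, J x v]
  exact mul_pos hzx' (hut z x hzx'.ne' v hv)

/-- **Taming in the limit on `X`.** -/
theorem limit_taming [CompactSpace X] [T2Space X] {J : End d X} (hJ : IsAlmostComplex J)
    {σ : Form d X 2} (hσ : IsSmooth σ) {η : ℕ → Form d X 2}
    (hη : ∀ n, Pool.Agent.N312.BU.Ex (η n)) {γ : Form d X 2} (hγ : IsSmooth γ)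
    (hlow : ∀ (n : ℕ) (x : X) (v : TangentSpace (𝓡 d) x),
      γ x ![v, J x v] ≤ (σ + η n) x ![v, J x v])
    (hnn : ∀ (x : X) (v : TangentSpace (𝓡 d) x), v ≠ 0 → ∀ ε : ℝ, 0 < ε → ∀ᶠ n in atTop,
      -ε < (σ + η n) x ![v, J x v]) {N : ℕ → Set X} (hN : ∀ i, ∀ z ∈ N i, Small J (N i) z)
    (hpos : ∀ x : X, (∀ i, x ∉ N i) → ∀ v : TangentSpace (𝓡 d) x, v ≠ 0 →
      ∃ ε : ℝ, 0 < ε ∧ ∀ᶠ n in atTop, ε ≤ (σ + η n) x ![v, J x v]) :
    ∃ ζ : Form d X 2, Pool.Agent.N312.BU.Ex ζ ∧ ∀ x, TamesAt (σ + ζ) J x := by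
  classical
  by_contra hcon
  set C : Set (Form d X 2) := {w | ∃ ζ : Form d X 2, Pool.Agent.N312.BU.Ex ζ ∧ w = σ + ζ} with hC
  have hex0 : Pool.Agent.N312.BU.Ex (0 : Form d X 2) :=
    ⟨0, IsSmooth.zero, IsSmooth.zero, IsD.zero⟩
  have hexadd : ∀ {ζ ζ' : Form d X 2}, Pool.Agent.N312.BU.Ex ζ → Pool.Agent.N312.BU.Ex ζ' →
      Pool.Agent.N312.BU.Ex (ζ + ζ') := by
    rintro ζ ζ' ⟨α, h1, h2, h3⟩ ⟨α', h1', h2', h3'⟩
    exact ⟨α + α', h1.add h1', h2.add h2', h3.add h3' h1 h1'⟩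
  obtain ⟨𝒜, μ, hμ, hex, hKC⟩ := Pool.Agent.N312.BU.exists_mu (d := d) (X := X) (J := J) hJ C
    ⟨σ + 0, 0, hex0, rfl⟩ (by
      rintro w ⟨ζ, hζ, rfl⟩
      exact hσ.add hζ.choose_spec.2.1) (by
      rintro w ⟨ζ, hζ, rfl⟩ w' ⟨ζ', hζ', rfl⟩ a b ha hb hab
      refine ⟨a • ζ + b • ζ', hexadd (hζ.smul a) (hζ'.smul b), ?_⟩
      calc a • (σ + ζ) + b • (σ + ζ') = (a + b) • σ + (a • ζ + b • ζ') := by
            rw [smul_add, smul_add, add_smul]; abel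
        _ = σ + (a • ζ + b • ζ') := by rw [hab, one_smul]) (by
      rintro w ⟨ζ, hζ, rfl⟩ η' hη'
      exact ⟨ζ + η', hexadd hζ hη', add_assoc _ _ _⟩)
    (by
      rintro ⟨w, ⟨ζ, hζ, rfl⟩, hw⟩
      exact hcon ⟨ζ, hζ, hw⟩)
  have hmem : ∀ n, σ + η n ∈ Pool.Agent.N312.BU.KC C := fun n =>
    ⟨1, σ + η n, 0, zero_le_one, ⟨η n, hη n, rfl⟩, hex0, by rw [one_smul, add_zero]⟩
  have hst := Pool.Agent.N312.BU.stages 𝒜 hJ μ hex (Pool.Agent.N312.BU.KC C) hKC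
    (fun _ _ => σ + η 0) (fun _ n => σ + η n) (fun _ _ => hmem 0) (fun _ n => hmem n)
    (fun _ => N) (fun j x v => v ≠ 0 ∧ j = 0)
    (fun _ => ⟨γ, hγ, fun _ x v _ => hlow 0 x v⟩) (fun _ => ⟨γ, hγ, fun n x v _ => hlow n x v⟩)
    (Eventually.of_forall fun s => ⟨Pool.Agent.N312.BU.vc_ne 𝒜 s, rfl⟩)
    (by
      rintro j x v hv ⟨-, rfl⟩ h1 _ h3
      exfalso
      by_cases hx : ∀ i, x ∉ N i
      · exact h3 (hpos x hx v hv)
      · push Not at hx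
        obtain ⟨i, hi⟩ := hx
        exact h1 i (Pool.Agent.N312.BU.rm_thin hi hv
          (thinAt2_of_thinAt ((show SmallAt 0 J (N i) x from hN i x hi).thinAt hJ))))
    (fun j x v h ε hε => hnn x v h.1 ε hε)
  obtain ⟨s, hs⟩ := hst.exists
  exact absurd (hs 1).2 one_ne_zero

omit [IsManifold (𝓡 d) ∞ X] in
theorem smoothFun_sum {ι : Type} (s : Finset ι) {ρ : ι → X → ℝ}
    (hρ : ∀ i, SmoothFun (d := d) (ρ i)) : SmoothFun (d := d) (fun x => ∑ i ∈ s, ρ i x) := by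
  classical
  induction s using Finset.induction_on with
  | empty =>
    have h : (fun x : X => ∑ i ∈ (∅ : Finset ι), ρ i x) = fun _ => (0 : ℝ) := by
      funext x; simp
    rw [h]
    exact SmoothFun.const 0
  | insert a s ha ih =>
    have h : (fun x : X => ∑ i ∈ insert a s, ρ i x) = fun x => ρ a x + ∑ i ∈ s, ρ i x := by
      funext x; rw [Finset.sum_insert ha]
    rw [h]
    exact (hρ a).add ih

omit [IsManifold (𝓡 d) ∞ X] in
theorem dd_const (c : ℝ) (x : X) (v : TangentSpace (𝓡 d) x) :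
    dd (d := d) (fun _ : X => c) x v = 0 := by
  unfold dd
  rw [mfderiv_const]; rfl

omit [IsManifold (𝓡 d) ∞ X] in
theorem dd_sum {ι : Type} (s : Finset ι) {ρ : ι → X → ℝ} (hρ : ∀ i, SmoothFun (d := d) (ρ i))
    (x : X) (v : TangentSpace (𝓡 d) x) :
    dd (d := d) (fun x => ∑ i ∈ s, ρ i x) x v = ∑ i ∈ s, dd (d := d) (ρ i) x v := by
  classical
  induction s using Finset.induction_on with
  | empty =>
    have h : (fun x : X => ∑ i ∈ (∅ : Finset ι), ρ i x) = fun _ => (0 : ℝ) := by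
      funext x; simp
    rw [h, dd_const, Finset.sum_empty]
  | insert a s ha ih =>
    have h : (fun x : X => ∑ i ∈ insert a s, ρ i x) = fun x => ρ a x + ∑ i ∈ s, ρ i x := by
      funext x; rw [Finset.sum_insert ha]
    rw [h, dd_add (hρ a) (smoothFun_sum s hρ), Finset.sum_insert ha, ih]

omit [IsManifold (𝓡 d) ∞ X] in
/-- a function with support in `V` vanishes, with its differential, near points outside `V` -/
theorem near_zero {ρ : X → ℝ} {V : Set X} (hs : tsupport ρ ⊆ V) {x₀ : X} (hx : x₀ ∉ V) :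
    ∀ᶠ x in 𝓝 x₀, ρ x = 0 ∧ ∀ v : TangentSpace (𝓡 d) x, dd (d := d) ρ x v = 0 := by
  have h2 : ∀ᶠ y in 𝓝 x₀, y ∉ tsupport ρ :=
    (isClosed_tsupport ρ).isOpen_compl.mem_nhds fun h => hx (hs h)
  filter_upwards [h2, h2.eventually_nhds] with x hx1 hx2
  refine ⟨image_eq_zero_of_notMem_tsupport hx1, fun v => ?_⟩
  have h3 : ρ =ᶠ[𝓝 x] fun _ => (0 : ℝ) := by
    filter_upwards [hx2] with y hy using image_eq_zero_of_notMem_tsupport hy
  have h4 : (mfderiv (𝓡 d) 𝓘(ℝ, ℝ) ρ x : E d →L[ℝ] ℝ) =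
      mfderiv (𝓡 d) 𝓘(ℝ, ℝ) (fun _ : X => (0 : ℝ)) x := h3.mfderiv_eq
  have h5 := congrArg (fun L : E d →L[ℝ] ℝ => L v) h4
  exact h5.trans (dd_const 0 x v)

end

section

variable {d : ℕ} {Z X : Type} [TopologicalSpace Z] [ChartedSpace (E d) Z]
  [TopologicalSpace X] [ChartedSpace (E d) X] [IsManifold (𝓡 d) ∞ X]
  {G : Type} [Group G] [MulAction G Z]

omit [IsManifold (𝓡 d) ∞ X] in
/-- the value on `X` of a form given by a section -/
theorem sect_val {pr : Z → X} (hpr : NormalCovering d G pr) (J : End d X) (σ : Form d X 2)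
    (t : Sec (d := d) pr) (c : Form d Z 2) {x : X} (hx : x ∈ t.V) (v : TangentSpace (𝓡 d) x) :
    (pull (d := d) pr σ + c) (t.s x) ![(ds t x v : E d), (ds t x (JE J x v) : E d)] =
      σ x ![v, J x v] + pullS t c x ![v, J x v] := by
  have h6 : (pull (d := d) pr σ + c) (t.s x) ![(ds t x v : E d), (ds t x (JE J x v) : E d)] =
      pull (d := d) pr σ (t.s x) ![(ds t x v : E d), (ds t x (JE J x v) : E d)] +
      c (t.s x) ![(ds t x v : E d), (ds t x (JE J x v) : E d)] := rfl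
  rw [h6]
  have h7 := pull_ds hpr.diffeo σ t hx v (J x v)
  have h8 := pullS_apply2 t c hx v (J x v)
  rw [h8]
  exact congrArg (fun r => r + c (t.s x) ![(ds t x v : E d), (ds t x (JE J x v) : E d)]) h7

/-- the difference of the pull-backs by two sections, times the differential of a cut-off, is
bounded -/
theorem diff_bdd {pr : Z → X} (hpr : NormalCovering d G pr) {b : ℕ → Form d Z 1}
    (hAI : AsympInvariant (univ : Set G) pr b) (t t₀ : Sec (d := d) pr) {ρ : X → ℝ}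
    (hρ : SmoothFun (d := d) ρ) (hs : tsupport ρ ⊆ t.V) {x₀ : X} (hx₀ : x₀ ∈ t₀.V) :
    ∃ B : ℝ, 0 ≤ B ∧ ∀ᶠ q : ℕ × X in atTop ×ˢ 𝓝 x₀, ∀ v w : TangentSpace (𝓡 d) q.2,
      |dd (d := d) ρ q.2 v * (pullS t (b q.1) q.2 ![w] - pullS t₀ (b q.1) q.2 ![w])| ≤
        B * (csize x₀ q.2 v * csize x₀ q.2 w) := by
  by_cases hx : x₀ ∈ t.V
  · obtain ⟨g, hg⟩ := sec_near hpr t t₀ hx hx₀
    obtain ⟨M, hM, hM1⟩ := dd_bound hρ x₀
    obtain ⟨N, hN, A, hN1⟩ := hAI.bdd g (mem_univ g) (t₀.s x₀)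
    have hc : ContinuousAt t₀.s x₀ := (t₀.mdiff hx₀).continuousAt
    have hpx : pr (t₀.s x₀) = x₀ := t₀.sec x₀ hx₀
    have hx2 : ∀ᶠ x in 𝓝 x₀, t₀.s x ∈ N := hc hN
    refine ⟨M * |A|, by positivity, (hN1.prod_mk ((hg.and hM1).and hx2)).mono ?_⟩
    rintro ⟨n, x⟩ ⟨h1, ⟨⟨h2, h3, h4, h5⟩, h6⟩, h7⟩ v w
    have e2 := pullS_apply1 t (b n) h2 w
    have e3 := pullS_apply1 t₀ (b n) h3 w
    have e4 : pullS t (b n) x ![w] - pullS t₀ (b n) x ![w] =
        e1 (b n) (g • t₀.s x) (pu g (t₀.s x) (ds t₀ x w)) - e1 (b n) (t₀.s x) (ds t₀ x w) := by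
      rw [e2, e3, ← h5 w, ← h4]
      rfl
    have e5 : |e1 (b n) (g • t₀.s x) (pu g (t₀.s x) (ds t₀ x w)) -
        e1 (b n) (t₀.s x) (ds t₀ x w)| ≤
        A * size (d := d) pr (t₀.s x₀) (t₀.s x) (ds t₀ x w) := h1 _ h7 _
    rw [size_ds hpr.diffeo t₀ _ h3, hpx] at e5
    have h0' : 0 ≤ csize (d := d) x₀ x w := csize_nonneg _ _ _
    have e5' : |e1 (b n) (g • t₀.s x) (pu g (t₀.s x) (ds t₀ x w)) -
        e1 (b n) (t₀.s x) (ds t₀ x w)| ≤ |A| * csz x₀ x w :=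
      e5.trans (mul_le_mul_of_nonneg_right (le_abs_self A) h0')
    have e6 : |dd (d := d) ρ x v| ≤ M * csize x₀ x v := h6 v
    have h0 : 0 ≤ csize (d := d) x₀ x v := csize_nonneg _ _ _
    show |dd (d := d) ρ x v * (pullS t (b n) x ![w] - pullS t₀ (b n) x ![w])| ≤
      M * |A| * (csize x₀ x v * csize x₀ x w)
    rw [abs_mul, e4]
    calc |dd (d := d) ρ x v| * |e1 (b n) (g • t₀.s x) (pu g (t₀.s x) (ds t₀ x w)) -
        e1 (b n) (t₀.s x) (ds t₀ x w)| ≤ (M * csize x₀ x v) * (|A| * csize x₀ x w) :=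
          mul_le_mul e6 e5' (abs_nonneg _) (by positivity)
      _ = M * |A| * (csize x₀ x v * csize x₀ x w) := by ring
  · have h1 := near_zero (d := d) hs hx
    refine ⟨0, le_rfl, (h1.prod_inr atTop).mono ?_⟩
    rintro ⟨n, x⟩ ⟨-, h2⟩ v w
    have h3 : dd (d := d) ρ x v = 0 := h2 v
    show |dd (d := d) ρ x v * _| ≤ _
    rw [h3, zero_mul, abs_zero, zero_mul]

omit [IsManifold (𝓡 d) ∞ X] in
/-- and tends to zero pointwise -/
theorem diff_lim {pr : Z → X} (hpr : NormalCovering d G pr) {b : ℕ → Form d Z 1}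
    (hAI : AsympInvariant (univ : Set G) pr b) (t t₀ : Sec (d := d) pr) {ρ : X → ℝ}
    (hs : tsupport ρ ⊆ t.V) {x : X} (hx₀ : x ∈ t₀.V) (v w : TangentSpace (𝓡 d) x) :
    Tendsto (fun n => dd (d := d) ρ x v * (pullS t (b n) x ![w] - pullS t₀ (b n) x ![w]))
      atTop (𝓝 0) := by
  by_cases hx : x ∈ t.V
  · obtain ⟨g, hg⟩ := sec_near hpr t t₀ hx hx₀
    obtain ⟨h2, h3, h4, h5⟩ := hg.self_of_nhds
    have h6 : Tendsto (fun n => e1 (b n) (g • t₀.s x) (pu g (t₀.s x) (ds t₀ x w)) -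
        e1 (b n) (t₀.s x) (ds t₀ x w)) atTop (𝓝 0) :=
      hAI.lim g (mem_univ g) (t₀.s x) (ds t₀ x w : E d)
    have h7 := h6.const_mul (dd (d := d) ρ x v)
    rw [mul_zero] at h7
    refine h7.congr fun n => ?_
    have e2 := pullS_apply1 t (b n) h2 w
    have e3 := pullS_apply1 t₀ (b n) h3 w
    rw [e2, e3, ← h5 w, ← h4]
    rfl
  · have h1 := (near_zero (d := d) hs hx).self_of_nhds
    have h3 : dd (d := d) ρ x v = 0 := h1.2 v
    simp only [h3, zero_mul]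
    exact tendsto_const_nhds

omit [IsManifold (𝓡 d) ∞ X] in
/-- a lower bound for the forms on `Z` near the point `t.s x₀` gives one on `X` -/
theorem lower_of {pr : Z → X} (hpr : NormalCovering d G pr) {J : End d X} {σ : Form d X 2}
    {c : ℕ → Form d Z 2} (t : Sec (d := d) pr) {x₀ : X} (hx : x₀ ∈ t.V) {m : ℝ}
    (h : ∃ N ∈ 𝓝 (t.s x₀), ∀ᶠ n in atTop, ∀ z ∈ N, ∀ u u' : TangentSpace (𝓡 d) z,
      IsLift pr J z u u' → m * size pr (t.s x₀) z u ^ 2 ≤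
        (pull (d := d) pr σ + c n) z ![u, u']) :
    ∀ᶠ q : ℕ × X in atTop ×ˢ 𝓝 x₀, ∀ v : TangentSpace (𝓡 d) q.2,
      m * csize x₀ q.2 v ^ 2 ≤ σ q.2 ![v, J q.2 v] + pullS t (c q.1) q.2 ![v, J q.2 v] := by
  obtain ⟨N, hN, hN1⟩ := h
  have hc : ContinuousAt t.s x₀ := (t.mdiff hx).continuousAt
  have hx2 : ∀ᶠ x in 𝓝 x₀, t.s x ∈ N := hc hN
  have hpx : pr (t.s x₀) = x₀ := t.sec x₀ hx
  refine (hN1.prod_mk (hx2.and (t.openV.mem_nhds hx))).mono ?_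
  rintro ⟨n, x⟩ ⟨h1, h2, h3⟩ v
  have h4 := h1 (t.s x) h2 (ds t x v : E d) (ds t x (JE J x v) : E d)
    (isLift_ds hpr.diffeo J t h3 v)
  have h5 : size (d := d) pr (t.s x₀) (t.s x) (ds t x v) = csz x₀ x v := by
    rw [size_ds hpr.diffeo t _ h3, hpx]
  rw [h5] at h4
  show m * csize x₀ x v ^ 2 ≤ σ x ![v, J x v] + pullS t (c n) x ![v, J x v]
  rw [← sect_val hpr J σ t (c n) h3 v]
  exact h4

end

end Pool.Agent.H708.SYB
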