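import Pool.Agent.H708.SY.Loc

/-!
Local sections of a covering and extension by zero of the pulled back forms.
-/

set_option autoImplicit false

open Set Filter Topology
open scoped Manifold ContDiff

noncomputable section

namespace Pool.Agent.H708.SYB

open Pool.Agent.Y501.SY Pool.Agent.Y455.SY Pool.Agent.Y484.SY Pool.Agent.Y658.SY

section

variable {d : ℕ} {Z X : Type} [TopologicalSpace Z] [ChartedSpace (E d) Z]
  [TopologicalSpace X] [ChartedSpace (E d) X]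

/-- a local section of `pr` over `V` -/
structure Sec (pr : Z → X) where
  s : X → Z
  V : Set X
  W : Set Z
  openV : IsOpen V
  openW : IsOpen W
  smooth : ContMDiffOn (𝓡 d) (𝓡 d) ∞ s V
  sec : ∀ x ∈ V, pr (s x) = x
  maps : ∀ x ∈ V, s x ∈ W
  mapsV : ∀ z ∈ W, pr z ∈ V
  inv : ∀ z ∈ W, s (pr z) = z

theorem exists_sec {pr : Z → X} (hpr : IsLocalDiffeomorph (𝓡 d) (𝓡 d) ∞ pr) (z : Z) :
    ∃ t : Sec (d := d) pr, z ∈ t.W := by
  obtain ⟨Φ, hz, hΦ⟩ := hpr z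
  refine ⟨⟨Φ.symm, Φ.target, Φ.source, Φ.open_target, Φ.open_source, Φ.contMDiffOn_invFun,
    fun x hx => ?_, fun x hx => Φ.map_target hx, fun z hz => ?_, fun z hz => ?_⟩, hz⟩
  · have h := hΦ (Φ.map_target hx)
    exact h.trans (Φ.right_inv hx)
  · rw [hΦ hz]
    exact Φ.map_source hz
  · rw [hΦ hz]
    exact Φ.left_inv hz

open Classical in
/-- the pull-back of a form on `Z` by the section, extended by zero -/
def pullS {pr : Z → X} (t : Sec (d := d) pr) {k : ℕ} (b : Form d Z k) : Form d X k := fun x =>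
  if x ∈ t.V then (b (t.s x)).compContinuousLinearMap (mfderiv (𝓡 d) (𝓡 d) t.s x) else 0

theorem pullS_of_mem {pr : Z → X} (t : Sec (d := d) pr) {k : ℕ} (b : Form d Z k) {x : X}
    (hx : x ∈ t.V) : pullS t b x =
      (b (t.s x)).compContinuousLinearMap (mfderiv (𝓡 d) (𝓡 d) t.s x) := by
  unfold pullS
  rw [if_pos hx]

theorem Sec.mdiff {pr : Z → X} (t : Sec (d := d) pr) {x : X} (hx : x ∈ t.V) :
    MDifferentiableAt (𝓡 d) (𝓡 d) t.s x :=
  ((t.smooth x hx).contMDiffAt (t.openV.mem_nhds hx)).mdifferentiableAt (by simp)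

theorem pb_comp {k : ℕ} {φ : E d → X} {s : X → Z} (b : Form d Z k) {p : E d}
    (h1 : MDifferentiableAt (𝓡 d) (𝓡 d) s (φ p)) (h2 : MDifferentiableAt (𝓡 d) (𝓡 d) φ p) :
    pb (s ∘ φ) b p = ((b (s (φ p))).compContinuousLinearMap
      (mfderiv (𝓡 d) (𝓡 d) s (φ p))).compContinuousLinearMap (mfderiv (𝓡 d) (𝓡 d) φ p) := by
  unfold pb
  rw [mfderiv_comp p h1 h2]
  rfl

theorem pb_pullS {pr : Z → X} (t : Sec (d := d) pr) {k : ℕ} (b : Form d Z k) {U : Set (E d)}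
    {φ : E d → X} (hU : IsOpen U) (hφ : ContMDiffOn (𝓡 d) (𝓡 d) ∞ φ U) {p : E d} (hp : p ∈ U)
    (hx : φ p ∈ t.V) : pb φ (pullS t b) p = pb (t.s ∘ φ) b p := by
  rw [pb_comp b (t.mdiff hx) ((hφ.contMDiffAt (hU.mem_nhds hp)).mdifferentiableAt (by simp))]
  unfold pb
  rw [pullS_of_mem t b hx]
  rfl

theorem wedge1_zero (b : (E d) [⋀^Fin 1]→L[ℝ] ℝ) : wedge1 (V := E d) 0 b = 0 := by
  ext v
  rw [Pool.Agent.Y658.SY.wedge1_apply]
  simp

/-- the domain of `s ∘ φ` -/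
theorem dom_open {pr : Z → X} (t : Sec (d := d) pr) {U : Set (E d)}
    {φ : E d → X} (hU : IsOpen U) (hφ : ContMDiffOn (𝓡 d) (𝓡 d) ∞ φ U) :
    IsOpen (U ∩ φ ⁻¹' t.V) :=
  hφ.continuousOn.isOpen_inter_preimage hU t.openV

theorem dom_smooth {pr : Z → X} (t : Sec (d := d) pr) {U : Set (E d)}
    {φ : E d → X} (hφ : ContMDiffOn (𝓡 d) (𝓡 d) ∞ φ U) :
    ContMDiffOn (𝓡 d) (𝓡 d) ∞ (t.s ∘ φ) (U ∩ φ ⁻¹' t.V) :=
  t.smooth.comp (hφ.mono inter_subset_left) fun _ hp => hp.2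

theorem zero_near {U : Set (E d)} {φ : E d → X} (hU : IsOpen U)
    (hφ : ContMDiffOn (𝓡 d) (𝓡 d) ∞ φ U) {V : Set X} {ρ : X → ℝ} (hs : tsupport ρ ⊆ V)
    {p : E d} (hp : p ∈ U) (hx : φ p ∉ V) : ∀ᶠ q in 𝓝 p, q ∈ U ∧ ρ ∘ φ =ᶠ[𝓝 q] 0 := by
  have h1 : ContinuousAt φ p := hφ.continuousOn.continuousAt (hU.mem_nhds hp)
  have h2 : ∀ᶠ y in 𝓝 (φ p), y ∉ tsupport ρ :=
    (isClosed_tsupport ρ).isOpen_compl.mem_nhds fun h => hx (hs h)
  have h3 := h1.eventually h2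
  filter_upwards [hU.mem_nhds hp, h3.eventually_nhds] with q hq hq2
  refine ⟨hq, ?_⟩
  filter_upwards [hq2] with r hr
  exact image_eq_zero_of_notMem_tsupport (f := ρ) (x := φ r) hr

variable [IsManifold (𝓡 d) ∞ X]

theorem ext_prop {pr : Z → X} (t : Sec (d := d) pr) {b : Form d Z 1} {c : Form d Z 2}
    (hb : IsSmooth b) (hc : IsSmooth c) (hbc : IsD b c) {ρ : X → ℝ}
    (hρ : SmoothFun (d := d) ρ) (hs : tsupport ρ ⊆ t.V) :
    IsSmooth (fun x => ρ x • pullS t b x : Form d X 1) ∧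
    IsSmooth (prodD ρ (pullS t b) (pullS t c)) ∧
    IsD (fun x => ρ x • pullS t b x : Form d X 1) (prodD ρ (pullS t b) (pullS t c)) := by
  -- first case
  have case1 : ∀ (U : Set (E d)) (φ : E d → X), IsOpen U → ContMDiffOn (𝓡 d) (𝓡 d) ∞ φ U →
      ∀ p ∈ U, φ p ∈ t.V → 
      (pb φ (fun x => ρ x • pullS t b x : Form d X 1) =ᶠ[𝓝 p]
        fun q => (ρ ∘ φ) q • pb (t.s ∘ φ) b q) ∧
      (pb φ (prodD ρ (pullS t b) (pullS t c)) =ᶠ[𝓝 p]
        fun q => wedge1 (fderiv ℝ (ρ ∘ φ) q) (pb (t.s ∘ φ) b q) +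
          (ρ ∘ φ) q • pb (t.s ∘ φ) c q) := by
    intro U φ hU hφ p hp hx
    have ho := dom_open t hU hφ
    constructor
    · filter_upwards [ho.mem_nhds ⟨hp, hx⟩] with q hq
      have h1 := pb_pullS t b hU hφ hq.1 hq.2
      rw [← h1]
      rfl
    · filter_upwards [ho.mem_nhds ⟨hp, hx⟩] with q hq
      rw [pb_prodD hU hφ hρ hq.1, pb_pullS t b hU hφ hq.1 hq.2, pb_pullS t c hU hφ hq.1 hq.2]
  -- second case
  have case2 : ∀ (U : Set (E d)) (φ : E d → X), IsOpen U → ContMDiffOn (𝓡 d) (𝓡 d) ∞ φ U →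
      ∀ p ∈ U, φ p ∉ t.V → 
      (pb φ (fun x => ρ x • pullS t b x : Form d X 1) =ᶠ[𝓝 p] fun _ => 0) ∧
      (pb φ (prodD ρ (pullS t b) (pullS t c)) =ᶠ[𝓝 p] fun _ => 0) := by
    intro U φ hU hφ p hp hx
    have h0 := zero_near hU hφ hs hp hx
    constructor
    · filter_upwards [h0] with q hq
      have h1 : pb φ (fun x => ρ x • pullS t b x : Form d X 1) q =
        (ρ ∘ φ) q • pb φ (pullS t b) q := rfl
      rw [h1, hq.2.self_of_nhds]
      exact zero_smul ℝ _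
    · filter_upwards [h0] with q hq
      rw [pb_prodD hU hφ hρ hq.1, hq.2.self_of_nhds, hq.2.fderiv_eq]
      have h2 : fderiv ℝ (0 : E d → ℝ) q = 0 := by
        exact fderiv_const_apply (0 : ℝ)
      rw [h2, wedge1_zero, zero_add]
      exact zero_smul ℝ _
  have hρs : ∀ (U : Set (E d)) (φ : E d → X), ContMDiffOn (𝓡 d) (𝓡 d) ∞ φ U →
      ContDiffOn ℝ ∞ (ρ ∘ φ) U := fun U φ hφ => comp_smooth hφ hρ
  refine ⟨?_, ?_, ?_⟩
  · intro U φ hU hφ p hp
    by_cases hx : φ p ∈ t.V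
    · have ho := dom_open t hU hφ
      have h1 : ContDiffAt ℝ ∞ (fun q => (ρ ∘ φ) q • pb (t.s ∘ φ) b q) p :=
        ((hρs U φ hφ).contDiffAt (hU.mem_nhds hp)).smul
          ((hb _ _ ho (dom_smooth t hφ)).contDiffAt (ho.mem_nhds ⟨hp, hx⟩))
      exact (h1.congr_of_eventuallyEq (case1 U φ hU hφ p hp hx).1).contDiffWithinAt
    · exact (contDiffAt_const.congr_of_eventuallyEq (case2 U φ hU hφ p hp hx).1).contDiffWithinAt
  · intro U φ hU hφ p hp
    by_cases hx : φ p ∈ t.V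
    · have ho := dom_open t hU hφ
      have e1 : ContDiffOn ℝ ∞ (pb (t.s ∘ φ) b) (U ∩ φ ⁻¹' t.V) := hb _ _ ho (dom_smooth t hφ)
      have e2 : ContDiffOn ℝ ∞ (pb (t.s ∘ φ) c) (U ∩ φ ⁻¹' t.V) := hc _ _ ho (dom_smooth t hφ)
      have e3 : ContDiffOn ℝ ∞ (ρ ∘ φ) (U ∩ φ ⁻¹' t.V) := (hρs U φ hφ).mono inter_subset_left
      have h1 : ContDiffOn ℝ ∞ (fun q => wedge1 (fderiv ℝ (ρ ∘ φ) q) (pb (t.s ∘ φ) b q) +
          (ρ ∘ φ) q • pb (t.s ∘ φ) c q) (U ∩ φ ⁻¹' t.V) :=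
        (smooth_wedge1 (e3.fderiv_of_isOpen ho (by simp)) e1).add (e3.smul e2)
      exact ((h1.contDiffAt (ho.mem_nhds ⟨hp, hx⟩)).congr_of_eventuallyEq
        (case1 U φ hU hφ p hp hx).2).contDiffWithinAt
    · exact (contDiffAt_const.congr_of_eventuallyEq (case2 U φ hU hφ p hp hx).2).contDiffWithinAt
  · intro U φ hU hφ p hp
    by_cases hx : φ p ∈ t.V
    · have ho := dom_open t hU hφ
      have hm := ho.mem_nhds (⟨hp, hx⟩ : p ∈ U ∩ φ ⁻¹' t.V)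
      obtain ⟨h1, h2⟩ := case1 U φ hU hφ p hp hx
      rw [h1.extDeriv_eq, h2.self_of_nhds]
      have hF : DifferentiableAt ℝ (ρ ∘ φ) p :=
        ((hρs U φ hφ).contDiffAt (hU.mem_nhds hp)).differentiableAt (by simp)
      have hB : DifferentiableAt ℝ (pb (t.s ∘ φ) b) p :=
        ((hb _ _ ho (dom_smooth t hφ)).contDiffAt hm).differentiableAt (by simp)
      rw [ext_prod hF hB, hbc _ _ ho (dom_smooth t hφ) p ⟨hp, hx⟩]
    · obtain ⟨h1, h2⟩ := case2 U φ hU hφ p hp hx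
      rw [h1.extDeriv_eq, h2.self_of_nhds]
      have h := extDeriv_fun_smul (𝕜 := ℝ) (x := p) (0 : ℝ)
        (fun _ : E d => (0 : (E d) [⋀^Fin 1]→L[ℝ] ℝ))
      simp only [zero_smul] at h
      exact h

omit [IsManifold (𝓡 d) ∞ X] in
theorem prodD_apply (u : X → ℝ) (β : Form d X 1) (ρ : Form d X 2) (x : X)
    (v w : TangentSpace (𝓡 d) x) :
    prodD u β ρ x ![v, w] = dd u x v * β x ![w] - dd u x w * β x ![v] + u x * ρ x ![v, w] := by
  have h := Pool.Agent.Y658.SY.wedge1_apply (V := E d) (dd u x) (β x) ![v, w]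
  have ev : (fun _ : Fin 1 => v) = ![v] := by
    funext i
    rw [Subsingleton.elim i 0]
    rfl
  have ew : (fun _ : Fin 1 => w) = ![w] := by
    funext i
    rw [Subsingleton.elim i 0]
    rfl
  refine (congrArg (fun t => t + u x * ρ x ![v, w]) h).trans ?_
  show dd u x v * β x (fun _ : Fin 1 => w) - dd u x w * β x (fun _ : Fin 1 => v) +
    u x * ρ x ![v, w] = _
  rw [ev, ew]

omit [IsManifold (𝓡 d) ∞ X] in
theorem IsD.sum {k : ℕ} {ι : Type} (s : Finset ι) {α : ι → Form d X k}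
    {η : ι → Form d X (k + 1)} (hα : ∀ i ∈ s, IsSmooth (α i)) (h : ∀ i ∈ s, IsD (α i) (η i)) :
    IsD (∑ i ∈ s, α i) (∑ i ∈ s, η i) := by
  classical
  induction s using Finset.induction_on with
  | empty =>
    rw [Finset.sum_empty, Finset.sum_empty]
    exact IsD.zero
  | insert a s ha ih =>
    rw [Finset.sum_insert ha, Finset.sum_insert ha]
    exact (h a (Finset.mem_insert_self a s)).add
      (ih (fun i hi => hα i (Finset.mem_insert_of_mem hi))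
        fun i hi => h i (Finset.mem_insert_of_mem hi)) (hα a (Finset.mem_insert_self a s))
      (IsSmooth.sum _ fun i hi => hα i (Finset.mem_insert_of_mem hi))

end

end Pool.Agent.H708.SYB
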