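import Pool.Agent.H708.SY.Main

/-!
Averages of equivariant families of one-forms over Følner sets.
-/

set_option autoImplicit false

open Set Filter Topology
open scoped Manifold ContDiff

noncomputable section

namespace Pool.Agent.H708.SYB

open Pool.Agent.Y501.SY Pool.Agent.Y455.SY Pool.Agent.Y484.SY Pool.Agent.Y658.SY

theorem sum_symmDiff_le {P : Type} [DecidableEq P] (A B : Finset P) (f : P → ℝ) :
    |∑ p ∈ A, f p - ∑ p ∈ B, f p| ≤ ∑ p ∈ symmDiff A B, |f p| := by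
  have h1 : ∑ p ∈ A, f p = ∑ p ∈ A \ B, f p + ∑ p ∈ A ∩ B, f p := by
    rw [add_comm]
    exact (Finset.sum_inter_add_sum_sdiff A B f).symm
  have h2 : ∑ p ∈ B, f p = ∑ p ∈ B \ A, f p + ∑ p ∈ A ∩ B, f p := by
    rw [add_comm, Finset.inter_comm]
    exact (Finset.sum_inter_add_sum_sdiff B A f).symm
  have h3 : symmDiff A B = (A \ B) ∪ (B \ A) := rfl
  have h4 : Disjoint (A \ B) (B \ A) := disjoint_sdiff_sdiff
  rw [h1, h2, h3, Finset.sum_union h4]
  have h5 := Finset.abs_sum_le_sum_abs f (A \ B)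
  have h6 := Finset.abs_sum_le_sum_abs f (B \ A)
  have h7 : ∑ p ∈ A \ B, f p + ∑ p ∈ A ∩ B, f p - (∑ p ∈ B \ A, f p + ∑ p ∈ A ∩ B, f p) =
      ∑ p ∈ A \ B, f p - ∑ p ∈ B \ A, f p := by ring
  rw [h7]
  exact (abs_sub _ _).trans (add_le_add h5 h6)

section

variable {d : ℕ} {Z X : Type} [TopologicalSpace Z] [ChartedSpace (E d) Z]
  [TopologicalSpace X] [ChartedSpace (E d) X]
  {G : Type} [Group G] [MulAction G Z] {P : Type} [MulAction G P]

theorem sum_apply1 {k : ℕ} (F : Finset P) (β : P → Form d Z k) (z : Z)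
    (m : Fin k → TangentSpace (𝓡 d) z) : (∑ p ∈ F, β p) z m = ∑ p ∈ F, β p z m := by
  classical
  induction F using Finset.induction_on with
  | empty => simp
  | insert a s ha ih =>
    rw [Finset.sum_insert ha, Finset.sum_insert ha, ← ih]
    rfl

theorem avg_apply {k : ℕ} (F : Finset P) (β : P → Form d Z k) (z : Z)
    (m : Fin k → TangentSpace (𝓡 d) z) :
    avg F β z m = (F.card : ℝ)⁻¹ * ∑ p ∈ F, β p z m := by
  rw [← sum_apply1]
  rfl

theorem avg_smooth {k : ℕ} (F : Finset P) {β : P → Form d Z k} (h : ∀ p, IsSmooth (β p)) :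
    IsSmooth (avg F β) := (IsSmooth.sum F fun p _ => h p).smul _

theorem avg_isD (F : Finset P) {β : P → Form d Z 1} {η : P → Form d Z 2}
    (hβ : ∀ p, IsSmooth (β p)) (h : ∀ p, IsD (β p) (η p)) : IsD (avg F β) (avg F η) :=
  (IsD.sum F (fun p _ => hβ p) fun p _ => h p).smul _

/-- the action on averages -/
theorem avg_diff [DecidableEq P] {β : P → Form d Z 1} {η : P → Form d Z 2}
    (hf : EquivFamily G β η) (F : Finset P) (g : G) (z : Z) (u : TangentSpace (𝓡 d) z) :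
    |avg F β (g⁻¹ • z) ![push g⁻¹ z u] - avg F β z ![u]| ≤
      (F.card : ℝ)⁻¹ * ∑ p ∈ symmDiff F (F.image fun p => g • p), |β p z ![u]| := by
  rw [avg_apply, avg_apply, ← mul_sub, abs_mul, abs_of_nonneg (by positivity : (0 : ℝ) ≤ (F.card : ℝ)⁻¹)]
  refine mul_le_mul_of_nonneg_left ?_ (by positivity)
  have h1 : ∑ p ∈ F, β p (g⁻¹ • z) ![push g⁻¹ z u] =
      ∑ p ∈ F.image (fun p => g • p), β p z ![u] := by
    rw [Finset.sum_image fun p _ q _ h => smul_left_cancel g h]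
    refine Finset.sum_congr rfl fun p _ => ?_
    have h2 := hf.equiv g⁻¹ (g • p) z u
    rw [inv_smul_smul] at h2
    exact h2
  rw [h1, symmDiff_comm]
  exact sum_symmDiff_le _ _ _

theorem size_nonneg (pr : Z → X) (z₀ z : Z) (u : TangentSpace (𝓡 d) z) : 0 ≤ size pr z₀ z u :=
  csize_nonneg _ _ _

theorem asymp_gen [DecidableEq P] {pr : Z → X} {S : Set G} (hSi : ∀ s ∈ S, s⁻¹ ∈ S)
    {β : P → Form d Z 1} {η : P → Form d Z 2} (hf : EquivFamily G β η)
    {F : ℕ → Finset P} (hne : ∀ n, (F n).Nonempty)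
    (hd : ∀ s ∈ S, ∀ (z₀ : Z) (ε : ℝ), 0 < ε → ∃ N ∈ 𝓝 z₀, ∀ᶠ n in atTop, ∀ z ∈ N,
      ∀ u : TangentSpace (𝓡 d) z, ∑ p ∈ symmDiff (F n) ((F n).image fun p => s • p),
        |β p z ![u]| ≤ (F n).card * (ε * size pr z₀ z u)) :
    AsympInvariant S pr (fun n => avg (F n) β) := by
  have key : ∀ s ∈ S, ∀ (z₀ : Z) (ε : ℝ), 0 < ε → ∃ N ∈ 𝓝 z₀, ∀ᶠ n in atTop, ∀ z ∈ N,
      ∀ u : TangentSpace (𝓡 d) z, |avg (F n) β (s • z) ![push s z u] - avg (F n) β z ![u]| ≤
        ε * size pr z₀ z u := by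
    intro s hs z₀ ε hε
    obtain ⟨N, hN, h1⟩ := hd s⁻¹ (hSi s hs) z₀ ε hε
    refine ⟨N, hN, ?_⟩
    filter_upwards [h1] with n hn z hz u
    have h2 := avg_diff hf (F n) s⁻¹ z u
    rw [inv_inv] at h2
    refine h2.trans ?_
    have hc : (0 : ℝ) < (F n).card := by
      exact_mod_cast Finset.card_pos.2 (hne n)
    rw [inv_mul_le_iff₀ hc]
    exact hn z hz u
  refine ⟨fun s hs z₀ => ?_, fun s hs z u => ?_⟩
  · obtain ⟨N, hN, h1⟩ := key s hs z₀ 1 one_pos
    exact ⟨N, hN, 1, h1⟩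
  · rw [Metric.tendsto_nhds]
    intro δ hδ
    have hsz := size_nonneg pr z z u
    obtain ⟨N, hN, h1⟩ := key s hs z (δ / (size pr z z u + 1)) (by positivity)
    filter_upwards [h1] with n hn
    rw [Real.dist_eq, sub_zero]
    refine (hn z (mem_of_mem_nhds hN) u).trans_lt ?_
    rw [div_mul_eq_mul_div, div_lt_iff₀ (by positivity)]
    nlinarith

theorem coe_symmDiff [DecidableEq P] (F : Finset P) (s : G) :
    (↑(symmDiff F (F.image fun p => s • p)) : Set P) =
      symmDiff (F : Set P) ((fun p => s • p) '' (F : Set P)) := by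
  rw [Finset.coe_symmDiff, Finset.coe_image]

theorem asymp_folner {pr : Z → X} {S : Set G} (hSi : ∀ s ∈ S, s⁻¹ ∈ S)
    {β : P → Form d Z 1} {η : P → Form d Z 2} (hf : EquivFamily G β η) {h : P → ℝ}
    {F : ℕ → Finset P} (hF : WeightedFolner S h F) (hd : Dominated pr β h) :
    AsympInvariant S pr (fun n => avg (F n) β) := by
  classical
  refine asymp_gen hSi hf hF.nonempty fun s hs z₀ ε hε => ?_
  obtain ⟨N, hN, A, hA0, hA⟩ := hd z₀
  refine ⟨N, hN, ?_⟩
  filter_upwards [hF.small s hs (ε / (A + 1)) (by positivity)] with n hn z hz u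
  rw [← coe_symmDiff, finsum_mem_coe_finset] at hn
  have hc : (0 : ℝ) ≤ (F n).card := by positivity
  have hsz := size_nonneg pr z₀ z u
  calc ∑ p ∈ symmDiff (F n) ((F n).image fun p => s • p), |β p z ![u]| ≤
      ∑ p ∈ symmDiff (F n) ((F n).image fun p => s • p), A * size pr z₀ z u * h p :=
        Finset.sum_le_sum fun p _ => (hA z hz u p).trans (le_of_eq (by ring))
    _ = A * size pr z₀ z u * ∑ p ∈ symmDiff (F n) ((F n).image fun p => s • p), h p := by
        rw [Finset.mul_sum]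
    _ ≤ A * size pr z₀ z u * (ε / (A + 1) * (F n).card) :=
        mul_le_mul_of_nonneg_left hn (by positivity)
    _ = (A / (A + 1)) * ((F n).card * (ε * size pr z₀ z u)) := by ring
    _ ≤ 1 * ((F n).card * (ε * size pr z₀ z u)) := by
        refine mul_le_mul_of_nonneg_right ?_ (by positivity)
        rw [div_le_one (by positivity)]
        linarith
    _ = _ := one_mul _

variable [IsManifold (𝓡 d) ∞ X]

/-- **Averages over weighted Følner sets.** -/
theorem thm2 [CompactSpace X] [T2Space X] {pr : Z → X} (hpr : NormalCovering d G pr)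
    {J : End d X} (hJ : IsAlmostComplex J) {σ : Form d X 2} (hσ : IsSmooth σ)
    (hσc : IsClosedForm σ) {S : Set G} (hS : Submonoid.closure S = ⊤) (hSi : ∀ s ∈ S, s⁻¹ ∈ S)
    {β : P → Form d Z 1} {η : P → Form d Z 2} (hf : EquivFamily G β η) {h : P → ℝ}
    {F : ℕ → Finset P} (hF : WeightedFolner S h F) (hd : Dominated pr β h)
    {N : ℕ → Set X} (hN : ∀ i, ∀ z ∈ N i, Small J (N i) z)
    (hlim : TamesInLimit pr J (fun n => pull (d := d) pr σ + avg (F n) η) N) :
    ClassTamed σ J :=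
  thm1 hpr hJ hσ hσc (fun n => avg_smooth (F n) hf.smooth1) (fun n => avg_smooth (F n) hf.smooth2)
    (fun n => avg_isD (F n) hf.smooth1 hf.isD) hS (asymp_folner hSi hf hF hd) hN hlim

omit [IsManifold (𝓡 d) ∞ X] in
/-- lower bounds for averages -/
theorem avg_lower {σ : Form d X 2} {pr : Z → X} {η : P → Form d Z 2} {F : Finset P}
    (hF : F.Nonempty) {z : Z} {u u' : TangentSpace (𝓡 d) z} {m : ℝ}
    (h : ∀ p ∈ F, m ≤ (pull (d := d) pr σ + η p) z ![u, u']) :
    m ≤ (pull (d := d) pr σ + avg F η) z ![u, u'] := by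
  have hc : (0 : ℝ) < F.card := by exact_mod_cast Finset.card_pos.2 hF
  have h1 : (pull (d := d) pr σ + avg F η) z ![u, u'] =
      pull (d := d) pr σ z ![u, u'] + avg F η z ![u, u'] := rfl
  rw [h1, avg_apply]
  have h2 : ∑ p ∈ F, (m - pull (d := d) pr σ z ![u, u']) ≤ ∑ p ∈ F, η p z ![u, u'] := by
    refine Finset.sum_le_sum fun p hp => ?_
    have h3 : m ≤ pull (d := d) pr σ z ![u, u'] + η p z ![u, u'] := h p hp
    linarith
  rw [Finset.sum_const, nsmul_eq_mul] at h2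
  have h4 : m - pull (d := d) pr σ z ![u, u'] ≤ (F.card : ℝ)⁻¹ * ∑ p ∈ F, η p z ![u, u'] := by
    rw [← div_eq_inv_mul, le_div_iff₀ hc, mul_comm]
    exact h2
  linarith

end

end Pool.Agent.H708.SYB
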