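import Pool.Agent.H708.SY.Fol

/-!
Balls in Schreier graphs and slow growth.
-/

set_option autoImplicit false

open Set Filter Topology
open scoped Manifold ContDiff

noncomputable section

namespace Pool.Agent.H708.SYB

open Pool.Agent.Y501.SY Pool.Agent.Y455.SY Pool.Agent.Y484.SY Pool.Agent.Y658.SY

/-- The derivative of the logarithm of the growth function times `h` tends to zero. -/
theorem slow_of_exp {a : ℕ → ℕ} {h ψ : ℕ → ℝ} (ha : ∀ n, 1 ≤ a n)
    (haψ : ∀ n, (a n : ℝ) ≤ Real.exp (ψ n)) (hψ : Tendsto ψ atTop atTop) (hh : ∀ n, 1 ≤ h n)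
    (hl : Tendsto (fun n => h (n + 1) * (ψ (n + 1) - ψ n)) atTop (𝓝 0)) : SlowGrowth a h := by
  intro ε hε n₀
  by_contra hne
  push Not at hne
  set ε₁ := min ε 1 with hε₁
  have hε₁0 : 0 < ε₁ := lt_min hε one_pos
  have h1 : ∀ᶠ n in atTop, h (n + 1) * (ψ (n + 1) - ψ n) < ε₁ / 4 :=
    hl.eventually (gt_mem_nhds (by positivity))
  obtain ⟨n₁, hn₁⟩ := eventually_atTop.1 h1
  set m := max n₀ n₁ with hm
  have hstep : ∀ n, m ≤ n → Real.log (a n) + 2 * (ψ (n + 1) - ψ n) ≤ Real.log (a (n + 1)) := by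
    intro n hn
    have g1 := hne n ((le_max_left _ _).trans hn)
    have g2 := hn₁ n ((le_max_right _ _).trans hn)
    have hh1 := hh (n + 1)
    have ha0 : (0 : ℝ) < a n := by exact_mod_cast ha n
    have ha1 : (0 : ℝ) < a (n + 1) := by exact_mod_cast ha (n + 1)
    have hh0 : 0 < h (n + 1) := by linarith
    have hx : 0 < ε₁ / h (n + 1) := by positivity
    have hx1 : ε₁ / h (n + 1) ≤ 1 := by
      rw [div_le_one hh0]
      exact (min_le_right _ _).trans hh1
    have g3 : ε₁ * a n ≤ h (n + 1) * ((a (n + 1) : ℝ) - a n) := by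
      have : ε₁ * (a n : ℝ) ≤ ε * a n := mul_le_mul_of_nonneg_right (min_le_left _ _) ha0.le
      linarith
    have g4 : (1 + ε₁ / h (n + 1)) * a n ≤ a (n + 1) := by
      have : ε₁ / h (n + 1) * a n ≤ (a (n + 1) : ℝ) - a n := by
        rw [div_mul_eq_mul_div, div_le_iff₀ hh0, mul_comm ((a (n + 1) : ℝ) - a n)]
        exact g3
      linarith
    have g5 : Real.log (1 + ε₁ / h (n + 1)) + Real.log (a n) ≤ Real.log (a (n + 1)) := by
      rw [← Real.log_mul (by positivity) ha0.ne']
      exact Real.log_le_log (by positivity) g4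
    have g6 : ε₁ / h (n + 1) / 2 ≤ Real.log (1 + ε₁ / h (n + 1)) := by
      have e1 := Real.one_sub_inv_le_log_of_pos (show 0 < 1 + ε₁ / h (n + 1) by positivity)
      refine le_trans ?_ e1
      have e2 : 1 - (1 + ε₁ / h (n + 1))⁻¹ = (ε₁ / h (n + 1)) / (1 + ε₁ / h (n + 1)) := by
        field_simp
        ring
      rw [e2]
      exact div_le_div_of_nonneg_left hx.le (by positivity) (by linarith)
    have g7 : 2 * (ψ (n + 1) - ψ n) ≤ ε₁ / h (n + 1) / 2 := by
      have e1 : ψ (n + 1) - ψ n ≤ ε₁ / 4 / h (n + 1) := by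
        rw [le_div_iff₀ hh0, mul_comm]
        exact g2.le
      calc 2 * (ψ (n + 1) - ψ n) ≤ 2 * (ε₁ / 4 / h (n + 1)) := by linarith
        _ = ε₁ / h (n + 1) / 2 := by ring
    linarith
  have hind : ∀ n, m ≤ n → Real.log (a m) - 2 * ψ m ≤ Real.log (a n) - 2 * ψ n := by
    intro n hn
    induction n, hn using Nat.le_induction with
    | base => exact le_rfl
    | succ n hn ih =>
      have := hstep n hn
      linarith
  have hub : ∀ n, m ≤ n → ψ n ≤ 2 * ψ m - Real.log (a m) := by
    intro n hn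
    have g1 := hind n hn
    have ha0 : (0 : ℝ) < a n := by exact_mod_cast ha n
    have g2 : Real.log (a n) ≤ ψ n := by
      rw [Real.log_le_iff_le_exp ha0]
      exact haψ n
    linarith
  obtain ⟨n, hn1, hn2⟩ := ((hψ.eventually (eventually_gt_atTop (2 * ψ m - Real.log (a m)))).and
    (eventually_ge_atTop m)).exists
  exact absurd (hub n hn2) (not_le.2 hn1)

theorem slow_of_poly {a : ℕ → ℕ} {h : ℕ → ℝ} (ha : ∀ n, 1 ≤ a n) {A : ℝ} {D : ℕ}
    (haA : ∀ n, (a n : ℝ) ≤ A * ((n : ℝ) + 1) ^ D)
    (hl : Tendsto (fun n => h n / n) atTop (𝓝 0)) : SlowGrowth a (fun n => max (h n) 1) := by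
  have hA1 : 1 ≤ A := by
    have h1 := haA 0
    have h2 : (1 : ℝ) ≤ a 0 := by exact_mod_cast ha 0
    simp at h1
    linarith
  refine slow_of_exp (ψ := fun n => Real.log A + (D + 1) * Real.log ((n : ℝ) + 1)) ha
    (fun n => ?_) ?_ (fun n => le_max_right _ _) ?_
  · have e1 : Real.exp (Real.log A + (D + 1) * Real.log ((n : ℝ) + 1)) =
        A * ((n : ℝ) + 1) ^ (D + 1) := by
      rw [Real.exp_add, Real.exp_log (by linarith)]
      congr 1
      have h2 : ((D : ℝ) + 1) * Real.log ((n : ℝ) + 1) = Real.log (((n : ℝ) + 1) ^ (D + 1)) := by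
        rw [Real.log_pow]
        push_cast
        ring
      rw [h2, Real.exp_log (by positivity)]
    rw [e1]
    refine (haA n).trans (mul_le_mul_of_nonneg_left ?_ (by linarith))
    exact pow_le_pow_right₀ (by linarith [(Nat.cast_nonneg n : (0 : ℝ) ≤ n)]) (Nat.le_succ D)
  · have h2 : Tendsto (fun n : ℕ => Real.log ((n : ℝ) + 1)) atTop atTop :=
      Real.tendsto_log_atTop.comp (tendsto_atTop_add_const_right _ _ tendsto_natCast_atTop_atTop)
    exact tendsto_atTop_add_const_left _ _ (h2.const_mul_atTop (by positivity))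
  · have e0 : Tendsto (fun n : ℕ => |h n| / n + 1 / (n : ℝ)) atTop (𝓝 0) := by
      have e1 : Tendsto (fun n : ℕ => |h n| / n) atTop (𝓝 0) := by
        have := hl.abs
        simp only [abs_div, Nat.abs_cast, abs_zero] at this
        exact this
      simpa using e1.add (tendsto_const_div_atTop_nhds_zero_nat (1 : ℝ))
    have e2 : Tendsto (fun n : ℕ => ((D : ℝ) + 1) * (|h (n + 1)| / ((n + 1 : ℕ) : ℝ) +
        1 / ((n + 1 : ℕ) : ℝ))) atTop (𝓝 0) := by
      have := (e0.comp (tendsto_add_atTop_nat 1)).const_mul ((D : ℝ) + 1)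
      rw [mul_zero] at this
      exact this
    refine squeeze_zero (fun n => ?_) (fun n => ?_) e2
    · have h1 : (0 : ℝ) ≤ n := Nat.cast_nonneg n
      refine mul_nonneg (zero_le_one.trans (le_max_right _ _)) ?_
      have h3 : Real.log ((n : ℝ) + 1) ≤ Real.log ((((n + 1 : ℕ) : ℝ)) + 1) := by
        apply Real.log_le_log (by positivity)
        push_cast
        linarith
      have h4 : ((D : ℝ) + 1) * Real.log ((n : ℝ) + 1) ≤
          ((D : ℝ) + 1) * Real.log ((((n + 1 : ℕ) : ℝ)) + 1) :=
        mul_le_mul_of_nonneg_left h3 (by positivity)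
      linarith
    · have h1 : (0 : ℝ) ≤ n := Nat.cast_nonneg n
      have h3 : Real.log ((((n + 1 : ℕ) : ℝ)) + 1) - Real.log ((n : ℝ) + 1) ≤
          1 / ((n + 1 : ℕ) : ℝ) := by
        rw [← Real.log_div (by positivity) (by positivity)]
        refine (Real.log_le_sub_one_of_pos (by positivity)).trans (le_of_eq ?_)
        push_cast
        field_simp
        ring
      have h5 : max (h (n + 1)) 1 ≤ |h (n + 1)| + 1 :=
        max_le ((le_abs_self _).trans (by linarith)) (by linarith [abs_nonneg (h (n + 1))])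
      have h6 : 0 ≤ Real.log ((((n + 1 : ℕ) : ℝ)) + 1) - Real.log ((n : ℝ) + 1) := by
        rw [sub_nonneg]
        apply Real.log_le_log (by positivity)
        push_cast
        linarith
      have h7 : Real.log A + (D + 1) * Real.log ((((n + 1 : ℕ) : ℝ)) + 1) -
          (Real.log A + (D + 1) * Real.log ((n : ℝ) + 1)) =
          (D + 1) * (Real.log ((((n + 1 : ℕ) : ℝ)) + 1) - Real.log ((n : ℝ) + 1)) := by ring
      show max (h (n + 1)) 1 * (Real.log A + (D + 1) * Real.log ((((n + 1 : ℕ) : ℝ)) + 1) -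
          (Real.log A + (D + 1) * Real.log ((n : ℝ) + 1))) ≤ _
      rw [h7]
      calc max (h (n + 1)) 1 * ((D + 1) * (Real.log ((((n + 1 : ℕ) : ℝ)) + 1) -
            Real.log ((n : ℝ) + 1))) ≤
          (|h (n + 1)| + 1) * ((D + 1) * (1 / ((n + 1 : ℕ) : ℝ))) := by
            gcongr
        _ = ((D : ℝ) + 1) * (|h (n + 1)| / ((n + 1 : ℕ) : ℝ) + 1 / ((n + 1 : ℕ) : ℝ)) := by
            ring

section

variable {G P : Type} [Group G] [MulAction G P]

theorem ball_finite (S : Finset G) (p₀ : P) (n : ℕ) : (ball S p₀ n).Finite := by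
  induction n with
  | zero => exact finite_singleton p₀
  | succ n ih =>
    have h : ball S p₀ (n + 1) = ⋃ s ∈ S, (fun q => s • q) '' ball S p₀ n := by
      ext p
      simp [ball]
    rw [h]
    exact Set.Finite.biUnion S.finite_toSet fun s _ => ih.image _

theorem ball_succ {S : Finset G} (h1 : (1 : G) ∈ S) (p₀ : P) (n : ℕ) :
    ball S p₀ n ⊆ ball S p₀ (n + 1) := fun p hp => ⟨1, h1, p, hp, one_smul G p⟩

theorem mem_ball {S : Finset G} (h1 : (1 : G) ∈ S) (p₀ : P) (n : ℕ) : p₀ ∈ ball S p₀ n := by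
  induction n with
  | zero => exact mem_singleton p₀
  | succ n ih => exact ball_succ h1 p₀ n ih

theorem smul_ball {S : Finset G} {s : G} (hs : s ∈ S) (p₀ : P) (n : ℕ) {p : P}
    (hp : p ∈ ball S p₀ n) : s • p ∈ ball S p₀ (n + 1) := ⟨s, hs, p, hp, rfl⟩

theorem ball_orbit (S : Finset G) (p₀ : P) (n : ℕ) {p : P} (hp : p ∈ ball S p₀ n) :
    p ∈ MulAction.orbit G p₀ := by
  induction n generalizing p with
  | zero =>
    have : p = p₀ := hp
    rw [this]
    exact MulAction.mem_orbit_self p₀
  | succ n ih =>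
    obtain ⟨s, -, q, hq, rfl⟩ := hp
    exact MulAction.mem_orbit_of_mem_orbit s (ih hq)

theorem symm_card [DecidableEq P] {S : Finset G} (h1 : (1 : G) ∈ S) {s : G} (hs : s ∈ S)
    (p₀ : P) (n : ℕ) :
    symmDiff (ball_finite S p₀ n).toFinset ((ball_finite S p₀ n).toFinset.image fun p => s • p) ⊆
      (ball_finite S p₀ (n + 1)).toFinset ∧
    ((symmDiff (ball_finite S p₀ n).toFinset
      ((ball_finite S p₀ n).toFinset.image fun p => s • p)).card : ℝ) ≤
      2 * (((ball S p₀ (n + 1)).ncard : ℝ) - (ball S p₀ n).ncard) := by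
  set F := (ball_finite S p₀ n).toFinset with hF
  set F' := (ball_finite S p₀ (n + 1)).toFinset with hF'
  have hsub1 : F ⊆ F' := by
    intro p hp
    rw [hF, Set.Finite.mem_toFinset] at hp
    rw [hF', Set.Finite.mem_toFinset]
    exact ball_succ h1 p₀ n hp
  have hsub2 : F.image (fun p => s • p) ⊆ F' := by
    intro p hp
    obtain ⟨q, hq, rfl⟩ := Finset.mem_image.1 hp
    rw [hF, Set.Finite.mem_toFinset] at hq
    rw [hF', Set.Finite.mem_toFinset]
    exact smul_ball hs p₀ n hq
  have hc1 : F.card = (ball S p₀ n).ncard := (Set.ncard_eq_toFinset_card _ _).symm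
  have hc2 : F'.card = (ball S p₀ (n + 1)).ncard := (Set.ncard_eq_toFinset_card _ _).symm
  have hc3 : (F.image fun p => s • p).card = F.card :=
    Finset.card_image_of_injective _ (MulAction.injective s)
  constructor
  · intro p hp
    rw [Finset.mem_symmDiff] at hp
    rcases hp with h | h
    · exact hsub1 h.1
    · exact hsub2 h.1
  · have e1 : symmDiff F (F.image fun p => s • p) =
        (F \ F.image fun p => s • p) ∪ ((F.image fun p => s • p) \ F) := rfl
    have e2 : (symmDiff F (F.image fun p => s • p)).card ≤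
        (F' \ F.image fun p => s • p).card + (F' \ F).card := by
      rw [e1]
      refine (Finset.card_union_le _ _).trans (add_le_add ?_ ?_)
      · exact Finset.card_le_card (Finset.sdiff_subset_sdiff hsub1 (le_refl _))
      · exact Finset.card_le_card (Finset.sdiff_subset_sdiff hsub2 (le_refl _))
    have e3 : ((F' \ F.image fun p => s • p).card : ℝ) = F'.card - F.card := by
      have := Finset.card_sdiff_add_card_eq_card hsub2
      rw [hc3] at this
      rw [← this]
      push_cast
      ring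
    have e4 : ((F' \ F).card : ℝ) = F'.card - F.card := by
      have := Finset.card_sdiff_add_card_eq_card hsub1
      rw [← this]
      push_cast
      ring
    have e5 : ((symmDiff F (F.image fun p => s • p)).card : ℝ) ≤
        ((F' \ F.image fun p => s • p).card : ℝ) + (F' \ F).card := by exact_mod_cast e2
    rw [e3, e4, hc1, hc2] at e5
    linarith

end

end Pool.Agent.H708.SYB
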