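import Pool.Agent.H708.SY.Pub
import Pool.Graph.R_seed8.Y501.SY.AmenU

/-!
Local estimates for the forms `σ (v, J v)` in terms of the size of `v` in a chart.
-/

set_option autoImplicit false

open Set Filter Topology
open scoped Manifold ContDiff

noncomputable section

namespace Pool.Agent.H708.SYB

open Pool.Agent.Y501.SY Pool.Agent.Y455.SY Pool.Agent.Y484.SY

section

variable {d : ℕ} {X : Type} [TopologicalSpace X] [ChartedSpace (E d) X]

theorem ev_chart (x₀ : X) {R : X → Prop}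
    (h : ∀ᶠ p in 𝓝 (chartAt (E d) x₀ x₀), R ((chartAt (E d) x₀).symm p)) :
    ∀ᶠ x in 𝓝 x₀, R x := by
  have h1 : ∀ᶠ y in 𝓝 x₀, R ((chartAt (E d) x₀).symm (chartAt (E d) x₀ y)) :=
    ((chartAt (E d) x₀).continuousAt (mem_chart_source (E d) x₀)).eventually h
  have h2 : ∀ᶠ y in 𝓝 x₀, y ∈ (chartAt (E d) x₀).source :=
    (chartAt (E d) x₀).open_source.mem_nhds (mem_chart_source (E d) x₀)
  filter_upwards [h1, h2] with y hy hys
  rwa [(chartAt (E d) x₀).left_inv hys] at hy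

theorem csize_symm (x₀ : X) (p : E d) (v : E d) :
    csize (d := d) x₀ ((chartAt (E d) x₀).symm p) v = ‖B x₀ p v‖ := rfl

theorem csize_nonneg (x₀ x : X) (v : TangentSpace (𝓡 d) x) : 0 ≤ csize x₀ x v :=
  norm_nonneg (E := E d) _

theorem bdd_near {W : Type} [NormedAddCommGroup W] {f : E d → W} {p₀ : E d}
    (h : ContinuousAt f p₀) : ∃ M : ℝ, 0 ≤ M ∧ ∀ᶠ p in 𝓝 p₀, ‖f p‖ ≤ M := by
  refine ⟨‖f p₀‖ + 1, by positivity, ?_⟩
  have h1 : ContinuousAt (fun p => ‖f p‖) p₀ := h.norm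
  filter_upwards [h1.eventually (gt_mem_nhds (lt_add_one ‖f p₀‖))] with p hp using hp.le

variable [IsManifold (𝓡 d) ∞ X]

omit [IsManifold (𝓡 d) ∞ X] in
theorem mem_target (x₀ : X) : ∀ᶠ p in 𝓝 (chartAt (E d) x₀ x₀), p ∈ (chartAt (E d) x₀).target :=
  (chartAt (E d) x₀).open_target.mem_nhds (mem_chart_target (E d) x₀)

theorem q_bound {σ : Form d X 2} (hσ : IsSmooth σ) {J : End d X} (hJ : IsAlmostComplex J)
    (x₀ : X) : ∃ M : ℝ, 0 ≤ M ∧ ∀ᶠ x in 𝓝 x₀, ∀ v : TangentSpace (𝓡 d) x,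
      |σ x ![v, J x v]| ≤ M * csize x₀ x v ^ 2 := by
  have hp₀ := mem_chart_target (E d) x₀
  have h1 : ContinuousAt (pb (chartAt (E d) x₀).symm σ) (chartAt (E d) x₀ x₀) :=
    ((hσ _ _ (chartAt (E d) x₀).open_target (contMDiffOn_chart_symm)).continuousOn).continuousAt
      ((chartAt (E d) x₀).open_target.mem_nhds hp₀)
  have h2 : ContinuousAt (inChart J x₀) (chartAt (E d) x₀ x₀) :=
    (hJ.cont x₀).continuousAt ((chartAt (E d) x₀).open_target.mem_nhds hp₀)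
  obtain ⟨M₁, hM₁, h3⟩ := bdd_near h1
  obtain ⟨M₂, hM₂, h4⟩ := bdd_near h2
  refine ⟨M₁ * M₂, mul_nonneg hM₁ hM₂, ev_chart (d := d) x₀ ?_⟩
  filter_upwards [h3, h4, mem_target (d := d) x₀] with p hp3 hp4 hp v
  obtain ⟨e, rfl⟩ := A_surj x₀ hp v
  have e1 := Q_eq σ J x₀ hp e
  refine (le_of_eq (congrArg abs e1.symm)).trans ?_
  rw [csize_symm, BA x₀ hp]
  have h5 : |Q σ J x₀ p e| ≤ ‖pb (chartAt (E d) x₀).symm σ p‖ * (‖e‖ * ‖inChart J x₀ p e‖) := by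
    have h6 := (pb (chartAt (E d) x₀).symm σ p).le_opNorm ![e, inChart J x₀ p e]
    rw [Fin.prod_univ_two] at h6
    exact h6
  have h7 : ‖inChart J x₀ p e‖ ≤ M₂ * ‖e‖ :=
    ((inChart J x₀ p).le_opNorm e).trans (mul_le_mul_of_nonneg_right hp4 (norm_nonneg _))
  calc |Q σ J x₀ p e| ≤ ‖pb (chartAt (E d) x₀).symm σ p‖ * (‖e‖ * ‖inChart J x₀ p e‖) := h5
    _ ≤ M₁ * (‖e‖ * (M₂ * ‖e‖)) := by gcongr
    _ = M₁ * M₂ * ‖e‖ ^ 2 := by ring

theorem q_pos {σ : Form d X 2} (hσ : IsSmooth σ) {J : End d X} (hJ : IsAlmostComplex J)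
    (x₀ : X) (h : TamesAt σ J x₀) : ∃ c : ℝ, 0 < c ∧ ∀ᶠ x in 𝓝 x₀,
      ∀ v : TangentSpace (𝓡 d) x, c * csize x₀ x v ^ 2 ≤ σ x ![v, J x v] := by
  have hp₀ := mem_chart_target (E d) x₀
  have h0 : ∀ v : E d, v ≠ 0 → 0 < Q σ J x₀ (chartAt (E d) x₀ x₀) v := by
    rw [← tames_iff σ J x₀ hp₀, (chartAt (E d) x₀).left_inv (mem_chart_source (E d) x₀)]
    exact h
  have hcont : ∀ v : E d, ContinuousAt (fun z : E d × E d => Q σ J x₀ z.1 z.2)
      (chartAt (E d) x₀ x₀, v) := fun v => Q_cont hσ hJ x₀ hp₀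
  have hcont1 : Continuous (fun v : E d => Q σ J x₀ (chartAt (E d) x₀ x₀) v) := by
    rw [continuous_iff_continuousAt]
    intro v
    have h2 : ContinuousAt (fun v : E d => ((chartAt (E d) x₀ x₀, v) : E d × E d)) v := by
      fun_prop
    exact ContinuousAt.comp (f := fun v : E d => ((chartAt (E d) x₀ x₀, v) : E d × E d))
      (g := fun z : E d × E d => Q σ J x₀ z.1 z.2) (x := v) (hcont v) h2
  obtain ⟨c, hc, hcs⟩ : ∃ c : ℝ, 0 < c ∧ ∀ v ∈ Metric.sphere (0 : E d) 1,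
      c < Q σ J x₀ (chartAt (E d) x₀ x₀) v := by
    rcases (Metric.sphere (0 : E d) 1).eq_empty_or_nonempty with he | hne
    · exact ⟨1, one_pos, fun v hv => by rw [he] at hv; exact absurd hv (notMem_empty v)⟩
    · obtain ⟨w, hw, hmin⟩ := (isCompact_sphere (0 : E d) 1).exists_isMinOn hne
        hcont1.continuousOn
      have hw0 : w ≠ 0 := by
        rintro rfl
        simp at hw
      have hpos := h0 w hw0
      refine ⟨Q σ J x₀ (chartAt (E d) x₀ x₀) w / 2, by linarith, fun v hv => ?_⟩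
      have := hmin hv
      have h3 : Q σ J x₀ (chartAt (E d) x₀ x₀) w ≤ Q σ J x₀ (chartAt (E d) x₀ x₀) v := this
      linarith
  refine ⟨c, hc, ev_chart (d := d) x₀ ?_⟩
  have key : ∀ᶠ p in 𝓝 (chartAt (E d) x₀ x₀), ∀ v ∈ Metric.sphere (0 : E d) 1,
      c < Q σ J x₀ p v := by
    refine IsCompact.eventually_forall_of_forall_eventually (isCompact_sphere _ _) ?_
    intro v hv
    exact (hcont v).eventually (lt_mem_nhds (hcs v hv))
  filter_upwards [key, mem_target (d := d) x₀] with p hp3 hp v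
  obtain ⟨e, rfl⟩ := A_surj x₀ hp v
  have e1 := Q_eq σ J x₀ hp e
  refine le_trans ?_ (le_of_eq e1)
  rw [csize_symm, BA x₀ hp]
  by_cases he : e = 0
  · subst he
    have h5 := Q_smul σ J x₀ p 0 0
    rw [smul_zero] at h5
    rw [h5]
    simp
  · have h1 : e = ‖e‖ • (‖e‖⁻¹ • e) := by
      rw [smul_smul, mul_inv_cancel₀ (norm_ne_zero_iff.2 he), one_smul]
    have h6 : c < Q σ J x₀ p (‖e‖⁻¹ • e) := by
      apply hp3
      rw [mem_sphere_zero_iff_norm, norm_smul, norm_inv, norm_norm,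
        inv_mul_cancel₀ (norm_ne_zero_iff.2 he)]
    have h7 : Q σ J x₀ p e = ‖e‖ ^ 2 * Q σ J x₀ p (‖e‖⁻¹ • e) := by
      conv_lhs => rw [h1]
      rw [Q_smul]
    rw [h7]
    have h8 : 0 ≤ ‖e‖ ^ 2 := by positivity
    nlinarith

theorem J_bound {J : End d X} (hJ : IsAlmostComplex J) (x₀ : X) : ∃ M : ℝ, 0 ≤ M ∧
    ∀ᶠ x in 𝓝 x₀, ∀ v : TangentSpace (𝓡 d) x, csize x₀ x (J x v) ≤ M * csize x₀ x v := by
  have hp₀ := mem_chart_target (E d) x₀
  have h2 : ContinuousAt (inChart J x₀) (chartAt (E d) x₀ x₀) :=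
    (hJ.cont x₀).continuousAt ((chartAt (E d) x₀).open_target.mem_nhds hp₀)
  obtain ⟨M₂, hM₂, h4⟩ := bdd_near h2
  refine ⟨M₂, hM₂, ev_chart (d := d) x₀ ?_⟩
  filter_upwards [h4, mem_target (d := d) x₀] with p hp4 hp v
  obtain ⟨e, rfl⟩ := A_surj x₀ hp v
  have h7 : ‖inChart J x₀ p e‖ ≤ M₂ * ‖e‖ :=
    ((inChart J x₀ p).le_opNorm e).trans (mul_le_mul_of_nonneg_right hp4 (norm_nonneg _))
  have h8 : csize (d := d) x₀ ((chartAt (E d) x₀).symm p) (A x₀ p e) = ‖e‖ := by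
    rw [csize_symm, BA x₀ hp]
  rw [h8]
  exact h7

theorem dd_bound {f : X → ℝ} (hf : SmoothFun (d := d) f) (x₀ : X) : ∃ M : ℝ, 0 ≤ M ∧
    ∀ᶠ x in 𝓝 x₀, ∀ v : TangentSpace (𝓡 d) x, |dd (d := d) f x v| ≤ M * csize x₀ x v := by
  have hp₀ := mem_chart_target (E d) x₀
  have ho := (chartAt (E d) x₀).open_target
  have hs : ContMDiffOn (𝓡 d) (𝓡 d) ∞ (chartAt (E d) x₀).symm (chartAt (E d) x₀).target :=
    contMDiffOn_chart_symm
  have h1 : ContDiffOn ℝ ∞ (f ∘ (chartAt (E d) x₀).symm) (chartAt (E d) x₀).target :=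
    comp_smooth hs hf
  have h2 : ContinuousAt (fun p => fderiv ℝ (f ∘ (chartAt (E d) x₀).symm) p)
      (chartAt (E d) x₀ x₀) :=
    ((h1.fderiv_of_isOpen ho (m := ∞) (by simp)).continuousOn).continuousAt (ho.mem_nhds hp₀)
  obtain ⟨M₂, hM₂, h4⟩ := bdd_near h2
  refine ⟨M₂, hM₂, ev_chart (d := d) x₀ ?_⟩
  filter_upwards [h4, mem_target (d := d) x₀] with p hp4 hp v
  obtain ⟨e, rfl⟩ := A_surj x₀ hp v
  have h8 : csize (d := d) x₀ ((chartAt (E d) x₀).symm p) (A x₀ p e) = ‖e‖ := by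
    rw [csize_symm, BA x₀ hp]
  rw [h8]
  have h9 := dd_comp ho hs hf hp e
  refine (le_of_eq (congrArg abs h9)).trans ?_
  exact ((fderiv ℝ (f ∘ (chartAt (E d) x₀).symm) p).le_opNorm e).trans
    (mul_le_mul_of_nonneg_right hp4 (norm_nonneg _))

end

end Pool.Agent.H708.SYB
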