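import Pool.Agent.H708.SY.Core

/-!
Asymptotically invariant primitives: the criterion.
-/

set_option autoImplicit false

open Set Filter Topology
open scoped Manifold ContDiff

noncomputable section

namespace Pool.Agent.H708.SYB

open Pool.Agent.Y501.SY Pool.Agent.Y455.SY Pool.Agent.Y484.SY Pool.Agent.Y658.SY

section

variable {d : ℕ} {Z X : Type} [TopologicalSpace Z] [ChartedSpace (E d) Z]
  [TopologicalSpace X] [ChartedSpace (E d) X]

/-- sections of `pr` with a partition of unity -/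
structure Pou (pr : Z → X) (ι : Type) [Fintype ι] where
  T : ι → Sec (d := d) pr
  ρ : ι → X → ℝ
  smooth : ∀ i, SmoothFun (d := d) (ρ i)
  supp : ∀ i, tsupport (ρ i) ⊆ (T i).V
  nonneg : ∀ i x, 0 ≤ ρ i x
  sum : ∀ x, ∑ i, ρ i x = 1

variable [IsManifold (𝓡 d) ∞ X]

theorem exists_pou [CompactSpace X] [T2Space X] {pr : Z → X}
    (hpr : IsLocalDiffeomorph (𝓡 d) (𝓡 d) ∞ pr) (hsurj : Function.Surjective pr) :
    ∃ (ι : Type) (_ : Fintype ι), Nonempty (Pou (d := d) pr ι) := by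
  choose g hg using hsurj
  choose T hT using fun x : X => exists_sec hpr (g x)
  have hxV : ∀ x, x ∈ (T x).V := by
    intro x
    have := (T x).mapsV _ (hT x)
    rwa [hg] at this
  obtain ⟨t, -, ht⟩ := isCompact_univ.elim_nhds_subcover (fun x : X => (T x).V)
    (fun x _ => (T x).openV.mem_nhds (hxV x))
  obtain ⟨r, hr⟩ := SmoothPartitionOfUnity.exists_isSubordinate (𝓡 d) (isClosed_univ (X := X))
    (fun y : ↥t => (T y).V) (fun y => (T y).openV) (by
      intro x hx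
      obtain ⟨y, hy, hxy⟩ := mem_iUnion₂.1 (ht hx)
      exact mem_iUnion.2 ⟨⟨y, hy⟩, hxy⟩)
  refine ⟨↥t, inferInstance, ⟨⟨fun i => T i, fun i => r i, fun i => (r i).contMDiff, hr,
    fun i x => r.nonneg i x, fun x => ?_⟩⟩⟩
  rw [← finsum_eq_sum_of_fintype]
  exact r.sum_eq_one (mem_univ x)

/-- the glued one-form -/
def bhat {pr : Z → X} {ι : Type} [Fintype ι] (p : Pou (d := d) pr ι) (b : Form d Z 1) :
    Form d X 1 := ∑ i, (fun x => p.ρ i x • pullS (p.T i) b x : Form d X 1)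

/-- its exterior derivative -/
def chat {pr : Z → X} {ι : Type} [Fintype ι] (p : Pou (d := d) pr ι) (b : Form d Z 1)
    (c : Form d Z 2) : Form d X 2 := ∑ i, prodD (p.ρ i) (pullS (p.T i) b) (pullS (p.T i) c)

theorem hat_prop {pr : Z → X} {ι : Type} [Fintype ι] (p : Pou (d := d) pr ι) {b : Form d Z 1}
    {c : Form d Z 2} (hb : IsSmooth b) (hc : IsSmooth c) (hbc : IsD b c) :
    IsSmooth (bhat p b) ∧ IsSmooth (chat p b c) ∧ IsD (bhat p b) (chat p b c) := by
  have h := fun i => ext_prop (p.T i) hb hc hbc (p.smooth i) (p.supp i)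
  exact ⟨IsSmooth.sum _ fun i _ => (h i).1, IsSmooth.sum _ fun i _ => (h i).2.1,
    IsD.sum _ (fun i _ => (h i).1) fun i _ => (h i).2.2⟩

omit [IsManifold (𝓡 d) ∞ X] in
theorem chat_apply {pr : Z → X} {ι : Type} [Fintype ι] (p : Pou (d := d) pr ι)
    (b : Form d Z 1) (c : Form d Z 2) (x : X) (v w : TangentSpace (𝓡 d) x) :
    chat p b c x ![v, w] = ∑ i, (dd (p.ρ i) x v * pullS (p.T i) b x ![w] -
      dd (p.ρ i) x w * pullS (p.T i) b x ![v] + p.ρ i x * pullS (p.T i) c x ![v, w]) := by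
  unfold chat
  rw [sum_apply2]
  exact Finset.sum_congr rfl fun i _ => prodD_apply _ _ _ x v w

omit [IsManifold (𝓡 d) ∞ X] in
theorem dd_sum_zero {pr : Z → X} {ι : Type} [Fintype ι] (p : Pou (d := d) pr ι) (x : X)
    (v : TangentSpace (𝓡 d) x) : ∑ i, dd (d := d) (p.ρ i) x v = 0 := by
  rw [← dd_sum Finset.univ p.smooth]
  have h : (fun x : X => ∑ i, p.ρ i x) = fun _ => (1 : ℝ) := funext p.sum
  rw [h, dd_const]

variable {G : Type} [Group G] [MulAction G Z]

omit [IsManifold (𝓡 d) ∞ X] in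
/-- the decomposition of the glued form -/
theorem chat_split {pr : Z → X} {ι : Type} [Fintype ι] (p : Pou (d := d) pr ι)
    (b : Form d Z 1) (c : Form d Z 2) (σ : Form d X 2) (t₀ : Sec (d := d) pr) (x : X)
    (v w : TangentSpace (𝓡 d) x) :
    σ x ![v, w] + chat p b c x ![v, w] =
      ∑ i, p.ρ i x * (σ x ![v, w] + pullS (p.T i) c x ![v, w]) +
      (∑ i, dd (d := d) (p.ρ i) x v * (pullS (p.T i) b x ![w] - pullS t₀ b x ![w]) -
      ∑ i, dd (d := d) (p.ρ i) x w * (pullS (p.T i) b x ![v] - pullS t₀ b x ![v])) := by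
  have h5 : ∀ v w : TangentSpace (𝓡 d) x,
      ∑ i, dd (d := d) (p.ρ i) x v * pullS (p.T i) b x ![w] =
      ∑ i, dd (d := d) (p.ρ i) x v * (pullS (p.T i) b x ![w] - pullS t₀ b x ![w]) := by
    intro v w
    simp only [mul_sub, Finset.sum_sub_distrib, ← Finset.sum_mul, dd_sum_zero, zero_mul,
      sub_zero]
  have e6 : ∑ i, p.ρ i x * (σ x ![v, w] + pullS (p.T i) c x ![v, w]) =
      σ x ![v, w] + ∑ i, p.ρ i x * pullS (p.T i) c x ![v, w] := by
    simp only [mul_add, Finset.sum_add_distrib, ← Finset.sum_mul, p.sum, one_mul]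
  rw [chat_apply, Finset.sum_add_distrib, Finset.sum_sub_distrib, e6, ← h5, ← h5]
  ring

theorem key_bdd {pr : Z → X} (hpr : NormalCovering d G pr) {J : End d X}
    (hJ : IsAlmostComplex J) {σ : Form d X 2} {b : ℕ → Form d Z 1} {c : ℕ → Form d Z 2}
    (hAI : AsympInvariant (univ : Set G) pr b) {ι : Type} [Fintype ι]
    (p : Pou (d := d) pr ι) {N : ℕ → Set X}
    (h : TamesInLimit pr J (fun n => pull (d := d) pr σ + c n) N) (x₀ : X) :
    ∃ M : ℝ, 0 ≤ M ∧ ∀ᶠ q : ℕ × X in atTop ×ˢ 𝓝 x₀, ∀ v : TangentSpace (𝓡 d) q.2,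
      -(M * csize x₀ q.2 v ^ 2) ≤ σ q.2 ![v, J q.2 v] +
        chat p (b q.1) (c q.1) q.2 ![v, J q.2 v] := by
  obtain ⟨z₀, hz₀⟩ := hpr.surj x₀
  obtain ⟨t₀, ht₀⟩ := exists_sec hpr.diffeo z₀
  have hx₀ : x₀ ∈ t₀.V := by
    have := t₀.mapsV _ ht₀
    rwa [hz₀] at this
  obtain ⟨K, hK, hK1⟩ := J_bound hJ x₀
  -- the main terms
  have h1 : ∀ i, ∃ A : ℝ, 0 ≤ A ∧ ∀ᶠ q : ℕ × X in atTop ×ˢ 𝓝 x₀,
      ∀ v : TangentSpace (𝓡 d) q.2,
      -(A * csize x₀ q.2 v ^ 2) ≤ p.ρ i q.2 * (σ q.2 ![v, J q.2 v] +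
        pullS (p.T i) (c q.1) q.2 ![v, J q.2 v]) := by
    intro i
    by_cases hx : x₀ ∈ (p.T i).V
    · obtain ⟨U, hU, A, hA⟩ := h.bdd ((p.T i).s x₀)
      have h2 := lower_of (σ := σ) (c := c) (J := J) hpr (p.T i) hx (m := -|A|) (by
        refine ⟨U, hU, ?_⟩
        filter_upwards [hA] with n hn z hz u u' hu
        refine le_trans ?_ (hn z hz u u' hu)
        have h3 := mul_le_mul_of_nonneg_right (le_abs_self A)
          (sq_nonneg (size pr ((p.T i).s x₀) z u))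
        linarith)
      refine ⟨|A|, abs_nonneg A, ?_⟩
      filter_upwards [h2] with q hq v
      have h3 := mul_le_mul_of_nonneg_left (hq v) (p.nonneg i q.2)
      refine le_trans ?_ h3
      have h4 : p.ρ i q.2 ≤ 1 := by
        rw [← p.sum q.2]
        exact Finset.single_le_sum (fun j _ => p.nonneg j q.2) (Finset.mem_univ i)
      have h5 : 0 ≤ |A| * csize x₀ q.2 v ^ 2 := by positivity
      nlinarith
    · have h1 := near_zero (d := d) (p.supp i) hx
      refine ⟨0, le_rfl, (h1.prod_inr atTop).mono ?_⟩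
      rintro ⟨n, x⟩ ⟨h2, -⟩ v
      have h3 : p.ρ i x = 0 := h2
      show -(0 * _) ≤ p.ρ i x * _
      rw [h3, zero_mul, zero_mul, neg_zero]
  choose A hA0 hA using h1
  choose B hB0 hB using fun i => diff_bdd hpr hAI (p.T i) t₀ (p.smooth i) (p.supp i) hx₀
  have h1' := Filter.eventually_all.2 hA
  have h2' := Filter.eventually_all.2 hB
  have h3' := hK1.prod_inr (atTop : Filter ℕ)
  refine ⟨∑ i, A i + 2 * ((∑ i, B i) * K), add_nonneg (Finset.sum_nonneg fun i _ => hA0 i)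
    (mul_nonneg two_pos.le (mul_nonneg (Finset.sum_nonneg fun i _ => hB0 i) hK)), ?_⟩
  filter_upwards [h1', h2', h3'] with ⟨n, x⟩ hq1 hq2 hq3 v
  have s0 : 0 ≤ csize (d := d) x₀ x v := csize_nonneg _ _ _
  have sJ : csize (d := d) x₀ x (J x v) ≤ K * csize x₀ x v := hq3 v
  have e1 : ∑ i, -(A i * csize x₀ x v ^ 2) ≤
      ∑ i, p.ρ i x * (σ x ![v, J x v] + pullS (p.T i) (c n) x ![v, J x v]) :=
    Finset.sum_le_sum fun i _ => hq1 i v
  rw [Finset.sum_neg_distrib, ← Finset.sum_mul] at e1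
  have e2 : ∀ v w : TangentSpace (𝓡 d) x,
      |∑ i, dd (d := d) (p.ρ i) x v * (pullS (p.T i) (b n) x ![w] - pullS t₀ (b n) x ![w])| ≤
        (∑ i, B i) * (csize x₀ x v * csize x₀ x w) := by
    intro v w
    refine (Finset.abs_sum_le_sum_abs _ _).trans ?_
    rw [Finset.sum_mul]
    exact Finset.sum_le_sum fun i _ => hq2 i v w
  have hBs : 0 ≤ ∑ i, B i := Finset.sum_nonneg fun i _ => hB0 i
  have e7 : (∑ i, B i) * (csize x₀ x v * csize (d := d) x₀ x (J x v)) ≤
      (∑ i, B i) * K * csize x₀ x v ^ 2 := by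
    calc (∑ i, B i) * (csize x₀ x v * csize (d := d) x₀ x (J x v)) ≤
        (∑ i, B i) * (csize x₀ x v * (K * csize x₀ x v)) := by gcongr
      _ = (∑ i, B i) * K * csize x₀ x v ^ 2 := by ring
  have e8 : (∑ i, B i) * (csize (d := d) x₀ x (J x v) * csize x₀ x v) ≤
      (∑ i, B i) * K * csize x₀ x v ^ 2 := by
    rw [mul_comm (csize (d := d) x₀ x (J x v))]
    exact e7
  have e9 := (abs_le.1 ((e2 v (J x v)).trans e7)).1
  have e10 := (abs_le.1 ((e2 (J x v) v).trans e8)).2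
  show -((∑ i, A i + 2 * ((∑ i, B i) * K)) * csize x₀ x v ^ 2) ≤
    σ x ![v, J x v] + chat p (b n) (c n) x ![v, J x v]
  rw [chat_split p (b n) (c n) σ t₀ x v (J x v)]
  linarith

omit [IsManifold (𝓡 d) ∞ X] in
theorem err_lim {pr : Z → X} (hpr : NormalCovering d G pr) {b : ℕ → Form d Z 1}
    (hAI : AsympInvariant (univ : Set G) pr b) {ι : Type} [Fintype ι]
    (p : Pou (d := d) pr ι) (t₀ : Sec (d := d) pr) {x : X} (hx₀ : x ∈ t₀.V)
    (v w : TangentSpace (𝓡 d) x) :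
    Tendsto (fun n => ∑ i, dd (d := d) (p.ρ i) x v *
      (pullS (p.T i) (b n) x ![w] - pullS t₀ (b n) x ![w]) -
      ∑ i, dd (d := d) (p.ρ i) x w *
      (pullS (p.T i) (b n) x ![v] - pullS t₀ (b n) x ![v])) atTop (𝓝 0) := by
  have h1 : ∀ v w : TangentSpace (𝓡 d) x, Tendsto (fun n => ∑ i, dd (d := d) (p.ρ i) x v *
      (pullS (p.T i) (b n) x ![w] - pullS t₀ (b n) x ![w])) atTop (𝓝 0) := by
    intro v w
    have h2 := tendsto_finsetSum (Finset.univ : Finset ι) fun i _ =>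
      diff_lim hpr hAI (p.T i) t₀ (p.supp i) hx₀ v w
    rw [Finset.sum_const_zero] at h2
    exact h2
  have h3 := (h1 v w).sub (h1 w v)
  rw [sub_zero] at h3
  exact h3

omit [IsManifold (𝓡 d) ∞ X] in
theorem ds_ne {pr : Z → X} (hpr : NormalCovering d G pr) (t : Sec (d := d) pr) {x : X}
    (hx : x ∈ t.V) {v : E d} (hv : v ≠ 0) : ds t x v ≠ 0 := by
  intro h0
  apply hv
  have h1 := dp_ds hpr.diffeo t hx v
  rw [h0] at h1
  rw [← h1]
  exact map_zero (mfderiv (𝓡 d) (𝓡 d) pr (t.s x) : E d →L[ℝ] E d)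

/-- **Asymptotically invariant primitives.** -/
theorem thm1 [CompactSpace X] [T2Space X] {pr : Z → X} (hpr : NormalCovering d G pr)
    {J : End d X} (hJ : IsAlmostComplex J) {σ : Form d X 2} (hσ : IsSmooth σ)
    (hσc : IsClosedForm σ) {b : ℕ → Form d Z 1} {c : ℕ → Form d Z 2}
    (hb : ∀ n, IsSmooth (b n)) (hc : ∀ n, IsSmooth (c n)) (hbc : ∀ n, IsD (b n) (c n))
    {S : Set G} (hS : Submonoid.closure S = ⊤) (hAI : AsympInvariant S pr b)
    {N : ℕ → Set X} (hN : ∀ i, ∀ z ∈ N i, Small J (N i) z)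
    (hlim : TamesInLimit pr J (fun n => pull (d := d) pr σ + c n) N) :
    ClassTamed σ J := by
  classical
  have hAI' := asymp_all hpr hS hAI
  obtain ⟨ι, hι, ⟨p⟩⟩ := exists_pou hpr.diffeo hpr.surj
  obtain ⟨κ, hκ, hκt⟩ := exists_kappa (d := d) (X := X) hJ
  have hκ0 : ∀ (x : X) (v : TangentSpace (𝓡 d) x), 0 ≤ κ x ![v, J x v] := by
    intro x v
    by_cases hv : v = 0
    · subst hv
      exact le_of_eq (ContinuousAlternatingMap.map_coord_zero _ (0 : Fin 2) rfl).symm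
    · exact (hκt x v hv).le
  -- the lower bound
  obtain ⟨ε, hε, hlow⟩ := unif (X := X) isCompact_univ
    (fun ε x => 0 < ε → ∀ n : ℕ, ε⁻¹ ≤ n → ∀ v : TangentSpace (𝓡 d) x,
      -(ε⁻¹ * κ x ![v, J x v]) ≤ σ x ![v, J x v] + chat p (b n) (c n) x ![v, J x v])
    (fun ε ε' y hle hp h n hn v => by
      have h1 := inv_anti₀ h hle
      refine le_trans ?_ (hp (h.trans_le hle) n (h1.trans hn) v)
      exact neg_le_neg (mul_le_mul_of_nonneg_right h1 (hκ0 y v)))
    (by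
      intro x₀ _
      obtain ⟨M, hM, hM1⟩ := key_bdd hpr hJ hAI' p hlim x₀
      obtain ⟨m, hm, hm1⟩ := q_pos hκ hJ x₀ (hκt x₀)
      rw [eventually_prod_iff] at hM1
      obtain ⟨pa, hpa, pb', hpb, h3⟩ := hM1
      obtain ⟨n₀, hn₀⟩ := eventually_atTop.1 hpa
      refine ⟨((n₀ : ℝ) + 1 + M / m)⁻¹, by positivity, ?_⟩
      filter_upwards [hpb, hm1] with x hx hx2 _ n hn v
      rw [inv_inv] at hn ⊢
      have hMm : 0 ≤ M / m := by positivity
      have hn' : n₀ ≤ n := by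
        have : (n₀ : ℝ) ≤ n := by linarith
        exact_mod_cast this
      refine le_trans ?_ (h3 (hn₀ n hn') hx v)
      refine neg_le_neg ?_
      have h4 : m * csize x₀ x v ^ 2 ≤ κ x ![v, J x v] := hx2 v
      calc M * csize x₀ x v ^ 2 = M / m * (m * csize x₀ x v ^ 2) := by
            field_simp
        _ ≤ M / m * κ x ![v, J x v] := mul_le_mul_of_nonneg_left h4 hMm
        _ ≤ ((n₀ : ℝ) + 1 + M / m) * κ x ![v, J x v] :=
            mul_le_mul_of_nonneg_right (by linarith [(Nat.cast_nonneg n₀ : (0 : ℝ) ≤ n₀)])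
              (hκ0 x v))
  obtain ⟨n₀, hn₀⟩ := exists_nat_ge ε⁻¹
  -- the pointwise limits
  have hsplit : ∀ (x : X), ∃ t₀ : Sec (d := d) pr, x ∈ t₀.V := by
    intro x
    obtain ⟨z₀, hz₀⟩ := hpr.surj x
    obtain ⟨t₀, ht₀⟩ := exists_sec hpr.diffeo z₀
    refine ⟨t₀, ?_⟩
    have := t₀.mapsV _ ht₀
    rwa [hz₀] at this
  have hzero : ∀ (x : X) (i : ι), x ∉ (p.T i).V → p.ρ i x = 0 := fun x i hi =>
    ((near_zero (d := d) (p.supp i) hi).self_of_nhds).1
  have hlowpt : ∀ (x : X) (v : TangentSpace (𝓡 d) x) (m : ℝ),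
      (∀ i, x ∈ (p.T i).V → ∀ᶠ n in atTop, m ≤ (pull (d := d) pr σ + c n) ((p.T i).s x)
        ![(ds (p.T i) x v : E d), (ds (p.T i) x (JE J x v) : E d)]) →
      ∀ δ : ℝ, 0 < δ → ∀ᶠ n in atTop,
        m - δ < σ x ![v, J x v] + chat p (b n) (c n) x ![v, J x v] := by
    intro x v m hm δ hδ
    obtain ⟨t₀, ht₀⟩ := hsplit x
    have h1 : ∀ i, ∀ᶠ n in atTop, p.ρ i x * m ≤
        p.ρ i x * (σ x ![v, J x v] + pullS (p.T i) (c n) x ![v, J x v]) := by
      intro i
      by_cases hi : x ∈ (p.T i).V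
      · filter_upwards [hm i hi] with n hn
        rw [sect_val hpr J σ (p.T i) (c n) hi v] at hn
        exact mul_le_mul_of_nonneg_left hn (p.nonneg i x)
      · refine Eventually.of_forall fun n => ?_
        rw [hzero x i hi, zero_mul, zero_mul]
    have h2 := err_lim hpr hAI' p t₀ ht₀ v (J x v)
    have h3 := h2.eventually (lt_mem_nhds (show -δ < 0 by linarith))
    filter_upwards [Filter.eventually_all.2 h1, h3] with n hn1 hn2
    rw [chat_split p (b n) (c n) σ t₀ x v (J x v)]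
    have h4 : ∑ i, p.ρ i x * m ≤
        ∑ i, p.ρ i x * (σ x ![v, J x v] + pullS (p.T i) (c n) x ![v, J x v]) :=
      Finset.sum_le_sum fun i _ => hn1 i
    rw [← Finset.sum_mul, p.sum, one_mul] at h4
    linarith
  have hval : ∀ (n : ℕ) (x : X) (v : TangentSpace (𝓡 d) x),
      (σ + chat p (b n) (c n)) x ![v, J x v] =
      σ x ![v, J x v] + chat p (b n) (c n) x ![v, J x v] := fun n x v => rfl
  obtain ⟨ζ, ⟨α, hα, hζ, hαζ⟩, ht⟩ := limit_taming hJ hσ
    (η := fun n => chat p (b (n + n₀)) (c (n + n₀)))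
    (fun n => ⟨bhat p (b (n + n₀)), (hat_prop p (hb _) (hc _) (hbc _)).1,
      (hat_prop p (hb _) (hc _) (hbc _)).2.1, (hat_prop p (hb _) (hc _) (hbc _)).2.2⟩)
    (γ := (-ε⁻¹) • κ) (hκ.smul _)
    (by
      intro n x v
      have h1 := hlow x (mem_univ x) hε (n + n₀) (by
        push_cast
        linarith [(Nat.cast_nonneg n : (0 : ℝ) ≤ n)]) v
      refine le_of_eq_of_le ?_ h1
      change -ε⁻¹ * κ x ![v, J x v] = _
      ring)
    (by
      intro x v hv δ hδ
      have h1 := hlowpt x v (-(δ / 2)) (fun i hi => hlim.nonneg _ _ _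
        (isLift_ds hpr.diffeo J (p.T i) hi v) (δ / 2) (by positivity)) (δ / 2) (by positivity)
      have h2 := (tendsto_add_atTop_nat n₀).eventually h1
      filter_upwards [h2] with n hn
      rw [hval]
      linarith) hN
    (by
      intro x hx v hv
      have hne : Nonempty ι := by
        by_contra hne
        rw [not_nonempty_iff] at hne
        have := p.sum x
        rw [Finset.univ_eq_empty, Finset.sum_empty] at this
        exact zero_ne_one this
      have h1 : ∀ i, ∃ m : ℝ, 0 < m ∧ (x ∈ (p.T i).V → ∀ᶠ n in atTop,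
          m ≤ (pull (d := d) pr σ + c n) ((p.T i).s x)
          ![(ds (p.T i) x v : E d), (ds (p.T i) x (JE J x v) : E d)]) := by
        intro i
        by_cases hi : x ∈ (p.T i).V
        · obtain ⟨m, hm, h2⟩ := hlim.pos ((p.T i).s x) (by
            rw [(p.T i).sec x hi]; exact hx) _ _ (ds_ne hpr (p.T i) hi hv)
            (isLift_ds hpr.diffeo J (p.T i) hi v)
          exact ⟨m, hm, fun _ => h2⟩
        · exact ⟨1, one_pos, fun h => absurd h hi⟩
      choose m hm hm1 using h1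
      obtain ⟨i₀, hi₀⟩ := Finite.exists_min m
      have hm0 := hm i₀
      have h2 := hlowpt x v (m i₀) (fun i hi => (hm1 i hi).mono fun n hn => (hi₀ i).trans hn)
        (m i₀ / 2) (by positivity)
      refine ⟨m i₀ / 2, by positivity, ?_⟩
      filter_upwards [(tendsto_add_atTop_nat n₀).eventually h2] with n hn
      rw [hval]
      linarith)
  have g7 := closed_of_isD hα hζ hαζ
  have g8 : IsClosedForm (σ + ζ) := by
    have h1 := hσc.add g7 hσ hζ
    rwa [add_zero] at h1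
  exact ⟨α, ζ, hα, hζ, hαζ, hσ.add hζ, g8, ht, fun x v hv => nondeg_of_tames (ht x) v hv⟩

end

end Pool.Agent.H708.SYB
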