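import Pool.Graph.R_seed8.Y501.SY.Final

/-!
# Unbounded primitives on coverings: the definitions used in the statement

Differential forms, almost complex structures, taming and small sets are those of
`Pool/Graph/R_seed8/Y501/SY/Defs.lean`, `Thin.lean` and `Final.lean` (namespace
`Pool.Agent.Y501.SY`).
-/

set_option autoImplicit false

open Set Filter Topology
open scoped Manifold ContDiff

noncomputable section

namespace Pool.Agent.H708.SYB

open Pool.Agent.Y501.SY

section

variable {d : ℕ} {Z X : Type} [TopologicalSpace Z] [ChartedSpace (E d) Z]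
  [TopologicalSpace X] [ChartedSpace (E d) X]

/-- `pr : Z → X` is a surjective smooth local diffeomorphism, `G` acts on `Z` by smooth maps and
the orbits of `G` are the fibres of `pr`. -/
structure NormalCovering (d : ℕ) {Z X : Type} [TopologicalSpace Z] [ChartedSpace (E d) Z]
    [TopologicalSpace X] [ChartedSpace (E d) X] (G : Type) [Group G] [MulAction G Z]
    (pr : Z → X) : Prop where
  smooth : ∀ g : G, ContMDiff (𝓡 d) (𝓡 d) ∞ (fun z : Z => g • z)
  diffeo : IsLocalDiffeomorph (𝓡 d) (𝓡 d) ∞ pr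
  surj : Function.Surjective pr
  orbits : ∀ z z' : Z, pr z = pr z' ↔ ∃ g : G, g • z = z'

/-- the image of the tangent vector `u` at `z` under the action of `g` -/
def push {G : Type} [Group G] [MulAction G Z] (g : G) (z : Z) (u : TangentSpace (𝓡 d) z) :
    TangentSpace (𝓡 d) (g • z) :=
  mfderiv (𝓡 d) (𝓡 d) (fun z : Z => g • z) z u

/-- the size of the tangent vector `v` of `X` at `x`, measured in the chart at `x₀` -/
def csize (x₀ x : X) (v : TangentSpace (𝓡 d) x) : ℝ :=
  norm (E := E d) (mfderiv (𝓡 d) (𝓡 d) (chartAt (E d) x₀) x v)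

/-- the size of the tangent vector `u` of `Z` at `z`: the size of the vector `dpr(u)` of `X`,
measured in the chart at `pr z₀` -/
def size (pr : Z → X) (z₀ z : Z) (u : TangentSpace (𝓡 d) z) : ℝ :=
  csize (d := d) (pr z₀) (pr z) (mfderiv (𝓡 d) (𝓡 d) pr z u)

/-- `u'` is the lift of `J v`, where `v = dpr(u)`. -/
def IsLift (pr : Z → X) (J : End d X) (z : Z) (u u' : TangentSpace (𝓡 d) z) : Prop :=
  mfderiv (𝓡 d) (𝓡 d) pr z u' = J (pr z) (mfderiv (𝓡 d) (𝓡 d) pr z u)

/-- The class of the two-form `σ` contains a symplectic form taming `J`: for some smooth one-form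
`α`, with exterior derivative `ρ`, the form `σ + ρ` is smooth, closed and nondegenerate and
tames `J`. -/
def ClassTamed (σ : Form d X 2) (J : End d X) : Prop :=
  ∃ (α : Form d X 1) (ρ : Form d X 2), IsSmooth α ∧ IsSmooth ρ ∧ IsD α ρ ∧
    IsSmooth (σ + ρ) ∧ IsClosedForm (σ + ρ) ∧ (∀ x, TamesAt (σ + ρ) J x) ∧
    ∀ x (v : TangentSpace (𝓡 d) x), (∀ w, (σ + ρ) x ![v, w] = 0) → v = 0

/-- The set `C` is small at `z`: near `z` it has two-dimensional Hausdorff measure zero, or the
tangent vectors at `z` annihilated by the differentials of all smooth functions vanishing on `C`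
contain no `J`-complex line, or for finitely many pairs `(a, b)` of smooth functions mapping `C`
near `z` to null sets of the plane the sum of the forms `da ∧ db` tames `J` at `z`. -/
def Small (J : End d X) (C : Set X) (z : X) : Prop := SmallAt 0 J C z

/-- The differences of the pull-backs of the one-forms `b n` by the elements of `S` and the forms
`b n` are locally uniformly bounded on `Z` and tend to zero pointwise, as `n` tends to infinity.
(No derivatives are involved, and the forms `b n` themselves need not be bounded.) -/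
structure AsympInvariant {G : Type} [Group G] [MulAction G Z] (S : Set G) (pr : Z → X)
    (b : ℕ → Form d Z 1) : Prop where
  bdd : ∀ g ∈ S, ∀ z₀ : Z, ∃ U ∈ 𝓝 z₀, ∃ A : ℝ, ∀ᶠ n in atTop, ∀ z ∈ U,
    ∀ u : TangentSpace (𝓡 d) z, |b n (g • z) ![push g z u] - b n z ![u]| ≤ A * size pr z₀ z u
  lim : ∀ g ∈ S, ∀ (z : Z) (u : TangentSpace (𝓡 d) z),
    Tendsto (fun n => b n (g • z) ![push g z u] - b n z ![u]) atTop (𝓝 0)

/-- The two-forms `w n` tame `J` in the limit, off the sets `N i`: they are locally uniformly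
bounded below on the pairs `(u, u')` with `u'` the lift of `J v`, `v = dpr(u)`; for each such pair
the lower limit of the numbers `w n (u, u')` is nonnegative; and if `u ≠ 0` is a tangent vector at
a point over the complement of the sets `N i` then the lower limit is positive. -/
structure TamesInLimit (pr : Z → X) (J : End d X) (w : ℕ → Form d Z 2) (N : ℕ → Set X) :
    Prop where
  bdd : ∀ z₀ : Z, ∃ U ∈ 𝓝 z₀, ∃ A : ℝ, ∀ᶠ n in atTop, ∀ z ∈ U,
    ∀ u u' : TangentSpace (𝓡 d) z, IsLift pr J z u u' → -(A * size pr z₀ z u ^ 2) ≤ w n z ![u, u']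
  nonneg : ∀ (z : Z) (u u' : TangentSpace (𝓡 d) z), IsLift pr J z u u' →
    ∀ ε : ℝ, 0 < ε → ∀ᶠ n in atTop, -ε ≤ w n z ![u, u']
  pos : ∀ z : Z, (∀ i, pr z ∉ N i) → ∀ u u' : TangentSpace (𝓡 d) z, u ≠ 0 →
    IsLift pr J z u u' → ∃ c : ℝ, 0 < c ∧ ∀ᶠ n in atTop, c ≤ w n z ![u, u']

/-- An equivariant family of smooth one-forms `β p` on `Z`, with exterior derivatives `η p`, where
`p` ranges over a `G`-set `P`: the pull-back of `β (g • p)` by `g` is `β p`. -/
structure EquivFamily (G : Type) [Group G] [MulAction G Z] {P : Type} [MulAction G P]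
    (β : P → Form d Z 1) (η : P → Form d Z 2) : Prop where
  smooth1 : ∀ p, IsSmooth (β p)
  smooth2 : ∀ p, IsSmooth (η p)
  isD : ∀ p, IsD (β p) (η p)
  equiv : ∀ (g : G) (p : P) (z : Z) (u : TangentSpace (𝓡 d) z),
    β (g • p) (g • z) ![push g z u] = β p z ![u]

/-- the average of the forms `β p` over the finite set `F` -/
def avg {k : ℕ} {P : Type} (F : Finset P) (β : P → Form d Z k) : Form d Z k :=
  (F.card : ℝ)⁻¹ • ∑ p ∈ F, β p

variable {G : Type} [Group G] [MulAction G Z] {P : Type} [MulAction G P]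

/-- The translates of the finite sets `F n` by the elements of `S` are close to `F n`, with respect
to the weight `h`. -/
structure WeightedFolner (S : Set G) (h : P → ℝ) (F : ℕ → Finset P) : Prop where
  nonempty : ∀ n, (F n).Nonempty
  small : ∀ s ∈ S, ∀ ε : ℝ, 0 < ε → ∀ᶠ n in atTop,
    ∑ᶠ p ∈ symmDiff (F n : Set P) ((fun p => s • p) '' (F n : Set P)), h p ≤ ε * (F n).card

/-- Locally uniformly on `Z` the form `β p` is bounded by a constant times `h p`. -/
def Dominated (pr : Z → X) (β : P → Form d Z 1) (h : P → ℝ) : Prop :=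
  ∀ z₀ : Z, ∃ N ∈ 𝓝 z₀, ∃ A : ℝ, 0 ≤ A ∧ ∀ z ∈ N, ∀ (u : TangentSpace (𝓡 d) z) (p : P),
    |β p z ![u]| ≤ A * h p * size pr z₀ z u

end

/-- The balls around `p₀` in the Schreier graph of the `G`-set `P` with respect to `S`: the ball of
radius `n + 1` consists of the points `s • q`, with `s` in `S` and `q` in the ball of radius `n`. -/
def ball {G P : Type} [Group G] [MulAction G P] (S : Finset G) (p₀ : P) : ℕ → Set P
  | 0 => {p₀}
  | n + 1 => {p | ∃ s ∈ S, ∃ q ∈ ball S p₀ n, s • q = p}

/-- The product of `h (n + 1)` and the relative increment `(a (n + 1) - a n) / a n` has lower limit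
zero (or less). -/
def SlowGrowth (a : ℕ → ℕ) (h : ℕ → ℝ) : Prop :=
  ∀ ε : ℝ, 0 < ε → ∀ n₀ : ℕ, ∃ n, n₀ ≤ n ∧ h (n + 1) * ((a (n + 1) : ℝ) - a n) ≤ ε * a n

section

variable {d : ℕ} {Z X : Type} [TopologicalSpace Z] [ChartedSpace (E d) Z]
  [TopologicalSpace X] [ChartedSpace (E d) X]
  {G : Type} [Group G] [MulAction G Z] {P : Type} [MulAction G P]

/-- `S` is a finite symmetric generating set of `G` which contains the unit. -/
structure Generates (S : Finset G) : Prop where
  one : (1 : G) ∈ S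
  inv : ∀ s ∈ S, s⁻¹ ∈ S
  gen : Submonoid.closure (S : Set G) = ⊤

/-- Locally uniformly on `Z` the forms `β p`, for `p` in the ball of radius `n` around `p₀`, are
bounded by a constant times `h n`. -/
def BallDominated (S : Finset G) (p₀ : P) (pr : Z → X) (β : P → Form d Z 1) (h : ℕ → ℝ) : Prop :=
  ∀ z₀ : Z, ∃ N ∈ 𝓝 z₀, ∃ A : ℝ, 0 ≤ A ∧ ∀ (n : ℕ), ∀ p ∈ ball S p₀ n, ∀ z ∈ N,
    ∀ u : TangentSpace (𝓡 d) z, |β p z ![u]| ≤ A * h n * size pr z₀ z u

/-- The forms `w p` are weakly taming: `w p (u, u') ≥ 0` if `u'` is the lift of `J v`,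
`v = dpr(u)`, for all `p` in the orbit of `p₀`. -/
def FamilyWeak (G : Type) [Group G] [MulAction G P] (p₀ : P) (pr : Z → X) (J : End d X)
    (w : P → Form d Z 2) : Prop :=
  ∀ p ∈ MulAction.orbit G p₀, ∀ (z : Z) (u u' : TangentSpace (𝓡 d) z), IsLift pr J z u u' →
    0 ≤ w p z ![u, u']

/-- The forms `w p`, for `p` in the orbit of `p₀`, are uniformly taming over the complement of the
sets `N i`: if `u ≠ 0` is a tangent vector at a point over this complement, and `u'` is the lift of
`J v`, `v = dpr(u)`, then the numbers `w p (u, u')` are bounded below by a positive constant. -/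
def FamilyPos (G : Type) [Group G] [MulAction G P] (p₀ : P) (pr : Z → X) (J : End d X)
    (w : P → Form d Z 2) (N : ℕ → Set X) : Prop :=
  ∀ z : Z, (∀ i, pr z ∉ N i) → ∀ u u' : TangentSpace (𝓡 d) z, u ≠ 0 → IsLift pr J z u u' →
    ∃ c : ℝ, 0 < c ∧ ∀ p ∈ MulAction.orbit G p₀, c ≤ w p z ![u, u']

/-- The translates of `β` by the elements of the ball of radius `n` of the group are, locally
uniformly on `Z`, bounded by a constant times `h n`. -/
def GrowthAt (S : Finset G) (pr : Z → X) (β : Form d Z 1) (h : ℕ → ℝ) : Prop :=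
  ∀ z₀ : Z, ∃ N ∈ 𝓝 z₀, ∃ A : ℝ, 0 ≤ A ∧ ∀ (n : ℕ), ∀ g ∈ ball S (1 : G) n, ∀ z ∈ N,
    ∀ u : TangentSpace (𝓡 d) z, |β (g • z) ![push g z u]| ≤ A * h n * size pr z₀ z u

/-- `w` is weakly taming. -/
def WeaklyTames (pr : Z → X) (J : End d X) (w : Form d Z 2) : Prop :=
  ∀ (z : Z) (u u' : TangentSpace (𝓡 d) z), IsLift pr J z u u' → 0 ≤ w z ![u, u']

/-- The translates of `w` by `G` are uniformly taming over the complement of the sets `N i`: if
`u ≠ 0` is a tangent vector at a point `z` over this complement, and `u'` is the lift of `J v`,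
`v = dpr(u)`, then the values of `w` on the translates of `(u, u')` are bounded below by a positive
constant. -/
def UnifTamesOff (G : Type) [Group G] [MulAction G Z] (pr : Z → X) (J : End d X)
    (w : Form d Z 2) (N : ℕ → Set X) : Prop :=
  ∀ z : Z, (∀ i, pr z ∉ N i) → ∀ u u' : TangentSpace (𝓡 d) z, u ≠ 0 → IsLift pr J z u u' →
    ∃ c : ℝ, 0 < c ∧ ∀ g : G, c ≤ w (g • z) ![push g z u, push g z u']

end

end Pool.Agent.H708.SYB
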