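import Pool.Graph.R_seed8.Y501.SY.PubU
import Pool.Graph.R_seed8.Y501.SY.PubT

/-!
# Unbounded primitives on coverings: the definitions used in the statement

Differential forms, almost complex structures, taming, small sets and normal coverings are those
of `Pool/Graph/R_seed8/Y501/SY/Pub.lean`, `PubA.lean`, `PubU.lean` and `PubT.lean` (namespace
`Pool.Agent.Y501.SYP`).
-/

set_option autoImplicit false

open Set Filter Topology
open scoped Manifold ContDiff

noncomputable section

namespace Pool.Agent.H708.SYC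

open Pool.Agent.Y501.SYP

section

variable {V : Type} [NormedAddCommGroup V] [NormedSpace ℝ V]
  {Z X : Type} [TopologicalSpace Z] [ChartedSpace V Z] [TopologicalSpace X] [ChartedSpace V X]

/-- the image of the tangent vector `u` at `z` under the action of `g` -/
def push {G : Type} [Group G] [MulAction G Z] (g : G) (z : Z)
    (u : TangentSpace 𝓘(ℝ, V) z) : TangentSpace 𝓘(ℝ, V) (g • z) :=
  mfderiv 𝓘(ℝ, V) 𝓘(ℝ, V) (fun z : Z => g • z) z u

/-- the size of the tangent vector `v` of `X` at `x`, measured in the chart at `x₀` -/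
def csize (x₀ x : X) (v : TangentSpace 𝓘(ℝ, V) x) : ℝ :=
  norm (E := V) (mfderiv 𝓘(ℝ, V) 𝓘(ℝ, V) (chartAt V x₀) x v)

/-- the size of the tangent vector `u` of `Z` at `z`: the size of the vector `dpr(u)` of `X`,
measured in the chart at `pr z₀` -/
def size (pr : Z → X) (z₀ z : Z) (u : TangentSpace 𝓘(ℝ, V) z) : ℝ :=
  csize (V := V) (pr z₀) (pr z) (mfderiv 𝓘(ℝ, V) 𝓘(ℝ, V) pr z u)

/-- `u'` is the lift of `J v`, where `v = dpr(u)`. -/
def IsLift (pr : Z → X) (J : End V X) (z : Z) (u u' : TangentSpace 𝓘(ℝ, V) z) : Prop :=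
  mfderiv 𝓘(ℝ, V) 𝓘(ℝ, V) pr z u' = J (pr z) (mfderiv 𝓘(ℝ, V) 𝓘(ℝ, V) pr z u)

/-- `η` is the exterior derivative of the one-form `β`, and both are smooth. -/
structure Primitive (β : Form V Z 1) (η : Form V Z 2) : Prop where
  smooth1 : IsSmooth β
  smooth2 : IsSmooth η
  isD : IsD β η

/-- The class of `σ` contains a symplectic form taming `J`: for some smooth one-form `α`, with
exterior derivative `ρ`, the form `σ + ρ` is symplectic and tames `J`. -/
def ClassTamed (σ : Form V X 2) (J : End V X) : Prop :=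
  ∃ (α : Form V X 1) (ρ : Form V X 2), Primitive α ρ ∧ IsTamingSymplectic (addF σ ρ) J

/-- For every `g` the differences `g^* (b n) - b n` are locally uniformly bounded on `Z`, and tend
to zero pointwise, as `n` tends to infinity. (No derivatives are involved, and the forms `b n`
themselves need not be bounded.) -/
structure AsympInvariant (G : Type) [Group G] [MulAction G Z] (pr : Z → X)
    (b : ℕ → Form V Z 1) : Prop where
  bdd : ∀ (g : G) (z₀ : Z), ∃ U ∈ 𝓝 z₀, ∃ A : ℝ, ∀ᶠ n in atTop, ∀ z ∈ U,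
    ∀ u : TangentSpace 𝓘(ℝ, V) z, |b n (g • z) ![push g z u] - b n z ![u]| ≤ A * size pr z₀ z u
  lim : ∀ (g : G) (z : Z) (u : TangentSpace 𝓘(ℝ, V) z),
    Tendsto (fun n => b n (g • z) ![push g z u] - b n z ![u]) atTop (𝓝 0)

/-- The two-forms `w n` tame `J` in the limit, off the sets `N i`: they are locally uniformly
bounded below on the pairs `(u, u')` with `u'` the lift of `J v`, `v = dpr(u)`; for each such pair
the lower limit of the numbers `w n (u, u')` is nonnegative; and if `u ≠ 0` is a tangent vector at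
a point over the complement of the sets `N i` then the lower limit is positive. -/
structure TamesInLimit (pr : Z → X) (J : End V X) (w : ℕ → Form V Z 2) (N : ℕ → Set X) :
    Prop where
  bdd : ∀ z₀ : Z, ∃ U ∈ 𝓝 z₀, ∃ A : ℝ, ∀ᶠ n in atTop, ∀ z ∈ U,
    ∀ u u' : TangentSpace 𝓘(ℝ, V) z, IsLift pr J z u u' →
      -(A * size pr z₀ z u ^ 2) ≤ w n z ![u, u']
  nonneg : ∀ (z : Z) (u u' : TangentSpace 𝓘(ℝ, V) z), IsLift pr J z u u' →
    ∀ ε : ℝ, 0 < ε → ∀ᶠ n in atTop, -ε ≤ w n z ![u, u']
  pos : ∀ z : Z, (∀ i, pr z ∉ N i) → ∀ u u' : TangentSpace 𝓘(ℝ, V) z, u ≠ 0 →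
    IsLift pr J z u u' → ∃ c : ℝ, 0 < c ∧ ∀ᶠ n in atTop, c ≤ w n z ![u, u']

/-- The sets `N i` are small at all their points. -/
def SmallSets [MeasurableSpace V] [BorelSpace V] (J : End V X) (N : ℕ → Set X) : Prop :=
  ∀ i, ∀ x ∈ N i, SmallAll J (N i) x

/-- An equivariant family of smooth one-forms `β p` on `Z`, with exterior derivatives `η p`, where
`p` ranges over a `G`-set `P`: the pull-back of `β (g • p)` by `g` is `β p`. -/
structure EquivFamily (G : Type) [Group G] [MulAction G Z] {P : Type} [MulAction G P]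
    (β : P → Form V Z 1) (η : P → Form V Z 2) : Prop where
  prim : ∀ p, Primitive (β p) (η p)
  equiv : ∀ (g : G) (p : P) (z : Z) (u : TangentSpace 𝓘(ℝ, V) z),
    β (g • p) (g • z) ![push g z u] = β p z ![u]

/-- the average of the forms `β p` over the finite set `F` -/
def avg {k : ℕ} {P : Type} (F : Finset P) (β : P → Form V Z k) : Form V Z k :=
  fun z => (F.card : ℝ)⁻¹ • ∑ p ∈ F, β p z

/-- Locally uniformly on `Z` the form `β p` is bounded by a constant times `h p`. -/
def Dominated {P : Type} (pr : Z → X) (β : P → Form V Z 1) (h : P → ℝ) : Prop :=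
  ∀ z₀ : Z, ∃ U ∈ 𝓝 z₀, ∃ A : ℝ, 0 ≤ A ∧ ∀ z ∈ U, ∀ (u : TangentSpace 𝓘(ℝ, V) z) (p : P),
    |β p z ![u]| ≤ A * h p * size pr z₀ z u

end

/-- The translates of the finite nonempty sets `F n` by the elements of `S` are close to `F n`, with
respect to the weight `h`. -/
structure WeightedFolner {G P : Type} [Group G] [MulAction G P] (S : Set G) (h : P → ℝ)
    (F : ℕ → Finset P) : Prop where
  nonempty : ∀ n, (F n).Nonempty
  small : ∀ s ∈ S, ∀ ε : ℝ, 0 < ε → ∀ᶠ n in atTop,
    ∑ᶠ p ∈ symmDiff (F n : Set P) ((fun p => s • p) '' (F n : Set P)), h p ≤ ε * (F n).card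

/-- The balls around `p₀` in the Schreier graph of the `G`-set `P` with respect to `S`: the ball of
radius `n + 1` consists of the points `s • q`, with `s` in `S` and `q` in the ball of radius `n`. -/
def ball {G P : Type} [Group G] [MulAction G P] (S : Finset G) (p₀ : P) : ℕ → Set P
  | 0 => {p₀}
  | n + 1 => {p | ∃ s ∈ S, ∃ q ∈ ball S p₀ n, s • q = p}

/-- The product of `h (n + 1)` and the relative increment `(a (n + 1) - a n) / a n` has lower limit
zero (or less). -/
def SlowGrowth (a : ℕ → ℕ) (h : ℕ → ℝ) : Prop :=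
  ∀ ε : ℝ, 0 < ε → ∀ n₀ : ℕ, ∃ n, n₀ ≤ n ∧ h (n + 1) * ((a (n + 1) : ℝ) - a n) ≤ ε * a n

/-- `S` is a finite symmetric generating set of `G` which contains the unit. -/
structure Generates {G : Type} [Group G] (S : Finset G) : Prop where
  one : (1 : G) ∈ S
  inv : ∀ s ∈ S, s⁻¹ ∈ S
  gen : Submonoid.closure (S : Set G) = ⊤

section

variable {V : Type} [NormedAddCommGroup V] [NormedSpace ℝ V]
  {Z X : Type} [TopologicalSpace Z] [ChartedSpace V Z] [TopologicalSpace X] [ChartedSpace V X]
  {G P : Type} [Group G] [MulAction G Z] [MulAction G P]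

/-- Locally uniformly on `Z` the forms `β p`, for `p` in the ball of radius `n` around `p₀`, are
bounded by a constant times `h n`. -/
def BallDominated (S : Finset G) (p₀ : P) (pr : Z → X) (β : P → Form V Z 1) (h : ℕ → ℝ) : Prop :=
  ∀ z₀ : Z, ∃ U ∈ 𝓝 z₀, ∃ A : ℝ, 0 ≤ A ∧ ∀ (n : ℕ), ∀ p ∈ ball S p₀ n, ∀ z ∈ U,
    ∀ u : TangentSpace 𝓘(ℝ, V) z, |β p z ![u]| ≤ A * h n * size pr z₀ z u

/-- For `p` in the orbit of `p₀` the forms `w p` are weakly taming, `w p (u, u') ≥ 0` if `u'` is the
lift of `J v`, `v = dpr(u)`, and uniformly taming over the complement of the sets `N i`: if `u ≠ 0`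
is a tangent vector at a point over this complement, the numbers `w p (u, u')` are bounded below by
a positive constant. -/
structure FamilyTames (G : Type) [Group G] [MulAction G P] (p₀ : P) (pr : Z → X) (J : End V X)
    (w : P → Form V Z 2) (N : ℕ → Set X) : Prop where
  weak : ∀ p ∈ MulAction.orbit G p₀, ∀ (z : Z) (u u' : TangentSpace 𝓘(ℝ, V) z),
    IsLift pr J z u u' → 0 ≤ w p z ![u, u']
  pos : ∀ z : Z, (∀ i, pr z ∉ N i) → ∀ u u' : TangentSpace 𝓘(ℝ, V) z, u ≠ 0 →
    IsLift pr J z u u' → ∃ c : ℝ, 0 < c ∧ ∀ p ∈ MulAction.orbit G p₀, c ≤ w p z ![u, u']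

/-- The translates of `β` by the elements of the ball of radius `n` of the group are, locally
uniformly on `Z`, bounded by a constant times `h n`. -/
def GrowthAt (S : Finset G) (pr : Z → X) (β : Form V Z 1) (h : ℕ → ℝ) : Prop :=
  ∀ z₀ : Z, ∃ U ∈ 𝓝 z₀, ∃ A : ℝ, 0 ≤ A ∧ ∀ (n : ℕ), ∀ g ∈ ball S (1 : G) n, ∀ z ∈ U,
    ∀ u : TangentSpace 𝓘(ℝ, V) z, |β (g • z) ![push g z u]| ≤ A * h n * size pr z₀ z u

/-- `w` is weakly taming, `w (u, u') ≥ 0` if `u'` is the lift of `J v`, `v = dpr(u)`, and uniformly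
taming along the orbits over the complement of the sets `N i`: if `u ≠ 0` is a tangent vector at a
point over this complement, then the values of `w` on the translates of `(u, u')` are bounded below
by a positive constant. -/
structure OrbitTames (G : Type) [Group G] [MulAction G Z] (pr : Z → X) (J : End V X)
    (w : Form V Z 2) (N : ℕ → Set X) : Prop where
  weak : ∀ (z : Z) (u u' : TangentSpace 𝓘(ℝ, V) z), IsLift pr J z u u' → 0 ≤ w z ![u, u']
  pos : ∀ z : Z, (∀ i, pr z ∉ N i) → ∀ u u' : TangentSpace 𝓘(ℝ, V) z, u ≠ 0 →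
    IsLift pr J z u u' → ∃ c : ℝ, 0 < c ∧ ∀ g : G, c ≤ w (g • z) ![push g z u, push g z u']

end

end Pool.Agent.H708.SYC
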