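import Pool.Agent.H708.SY.Ext

/-!
Local sections of a normal covering near a point; asymptotic invariance under the whole group.
-/

set_option autoImplicit false

open Set Filter Topology
open scoped Manifold ContDiff

noncomputable section

namespace Pool.Agent.H708.SYB

open Pool.Agent.Y501.SY Pool.Agent.Y455.SY Pool.Agent.Y484.SY Pool.Agent.Y658.SY

section

variable {d : ℕ} {Z X : Type} [TopologicalSpace Z] [ChartedSpace (E d) Z]
  [TopologicalSpace X] [ChartedSpace (E d) X]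

/-- the size of a vector of the model space -/
def csz (x₀ x : X) (v : E d) : ℝ := csize (d := d) x₀ x v

/-- the derivative of the section -/
def ds {pr : Z → X} (t : Sec (d := d) pr) (x : X) (v : E d) : E d :=
  mfderiv (𝓡 d) (𝓡 d) t.s x v

/-- the derivative of the projection -/
def dp (pr : Z → X) (z : Z) (u : E d) : E d := mfderiv (𝓡 d) (𝓡 d) pr z u

/-- the almost complex structure on vectors of the model space -/
def JE (J : End d X) (x : X) (v : E d) : E d := J x v

theorem size_eq (pr : Z → X) (z₀ z : Z) (u : E d) :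
    size (d := d) pr z₀ z u = csz (pr z₀) (pr z) (dp pr z u) := rfl

theorem pullS_apply1 {pr : Z → X} (t : Sec (d := d) pr) (b : Form d Z 1) {x : X}
    (hx : x ∈ t.V) (v : TangentSpace (𝓡 d) x) :
    pullS t b x ![v] = b (t.s x) ![(ds t x v : E d)] := by
  rw [pullS_of_mem t b hx]
  have h : (fun i : Fin 1 => (mfderiv (𝓡 d) (𝓡 d) t.s x : TangentSpace (𝓡 d) x →
      TangentSpace (𝓡 d) (t.s x)) ((![v] : Fin 1 → TangentSpace (𝓡 d) x) i)) =
      ![mfderiv (𝓡 d) (𝓡 d) t.s x v] := by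
    funext i
    fin_cases i
    rfl
  exact congrArg (b (t.s x)) h

theorem pullS_apply2 {pr : Z → X} (t : Sec (d := d) pr) (b : Form d Z 2) {x : X}
    (hx : x ∈ t.V) (v w : TangentSpace (𝓡 d) x) :
    pullS t b x ![v, w] = b (t.s x) ![(ds t x v : E d), (ds t x w : E d)] := by
  rw [pullS_of_mem t b hx]
  have h : (fun i : Fin 2 => (mfderiv (𝓡 d) (𝓡 d) t.s x : TangentSpace (𝓡 d) x →
      TangentSpace (𝓡 d) (t.s x)) ((![v, w] : Fin 2 → TangentSpace (𝓡 d) x) i)) =
      ![mfderiv (𝓡 d) (𝓡 d) t.s x v, mfderiv (𝓡 d) (𝓡 d) t.s x w] := by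
    funext i
    fin_cases i <;> rfl
  exact congrArg (b (t.s x)) h

theorem mdiffPr {pr : Z → X} (hpr : IsLocalDiffeomorph (𝓡 d) (𝓡 d) ∞ pr) (z : Z) :
    MDifferentiableAt (𝓡 d) (𝓡 d) pr z := (hpr z).mdifferentiableAt (by simp)

theorem dp_ds {pr : Z → X} (hpr : IsLocalDiffeomorph (𝓡 d) (𝓡 d) ∞ pr)
    (t : Sec (d := d) pr) {x : X} (hx : x ∈ t.V) (v : E d) :
    dp pr (t.s x) (ds t x v) = v := by
  have h1 := mfderiv_comp x (mdiffPr hpr (t.s x)) (t.mdiff hx)
  have h2 : pr ∘ t.s =ᶠ[𝓝 x] id := by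
    filter_upwards [t.openV.mem_nhds hx] with y hy using t.sec y hy
  rw [h2.mfderiv_eq, mfderiv_id] at h1
  exact (congrArg (fun L : E d →L[ℝ] E d => L v) h1).symm

theorem size_ds {pr : Z → X} (hpr : IsLocalDiffeomorph (𝓡 d) (𝓡 d) ∞ pr)
    (t : Sec (d := d) pr) (z₀ : Z) {x : X} (hx : x ∈ t.V) (v : E d) :
    size (d := d) pr z₀ (t.s x) (ds t x v) = csz (pr z₀) x v := by
  rw [size_eq, dp_ds hpr t hx, t.sec x hx]

theorem isLift_ds {pr : Z → X} (hpr : IsLocalDiffeomorph (𝓡 d) (𝓡 d) ∞ pr) (J : End d X)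
    (t : Sec (d := d) pr) {x : X} (hx : x ∈ t.V) (v : E d) :
    IsLift (d := d) pr J (t.s x) (ds t x v) (ds t x (JE J x v)) := by
  have h1 : dp pr (t.s x) (ds t x (JE J x v)) = JE J x v := dp_ds hpr t hx _
  have h2 : dp pr (t.s x) (ds t x v) = v := dp_ds hpr t hx _
  have h3 : ∀ (y : X), y = x → JE J x v = JE J y v := by
    rintro y rfl
    rfl
  change dp pr (t.s x) (ds t x (JE J x v)) = JE J (pr (t.s x)) (dp pr (t.s x) (ds t x v))
  rw [h1, h2]
  exact h3 _ (t.sec x hx)

theorem pull_app (f : Z → X) (τ : Form d X 2) (x : Z) (v w : TangentSpace (𝓡 d) x) :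
    pull (d := d) f τ x ![v, w] =
      τ (f x) ![mfderiv (𝓡 d) (𝓡 d) f x v, mfderiv (𝓡 d) (𝓡 d) f x w] := by
  unfold pull
  rw [ContinuousAlternatingMap.compContinuousLinearMap_apply]
  congr 1
  funext i
  fin_cases i <;> rfl

theorem pull_ds {pr : Z → X} (hpr : IsLocalDiffeomorph (𝓡 d) (𝓡 d) ∞ pr) (σ : Form d X 2)
    (t : Sec (d := d) pr) {x : X} (hx : x ∈ t.V) (v w : TangentSpace (𝓡 d) x) :
    pull (d := d) pr σ (t.s x) ![(ds t x v : E d), (ds t x w : E d)] = σ x ![v, w] := by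
  have h0 := pull_app (d := d) pr σ (t.s x) (ds t x v : E d) (ds t x w : E d)
  refine h0.trans ?_
  have h1 : dp pr (t.s x) (ds t x v) = v := dp_ds hpr t hx _
  have h2 : dp pr (t.s x) (ds t x w) = w := dp_ds hpr t hx _
  change σ (pr (t.s x)) ![(dp pr (t.s x) (ds t x v) : E d), (dp pr (t.s x) (ds t x w) : E d)] = _
  rw [h1, h2]
  have h3 : ∀ (y : X), y = x → σ y ![(v : E d), (w : E d)] = σ x ![v, w] := by
    rintro y rfl
    rfl
  exact h3 _ (t.sec x hx)

variable {G : Type} [Group G] [MulAction G Z]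

theorem pr_smul {pr : Z → X} (hpr : NormalCovering d G pr) (g : G) (z : Z) :
    pr (g • z) = pr z := ((hpr.orbits z (g • z)).2 ⟨g, rfl⟩).symm

theorem mdiffG {pr : Z → X} (hpr : NormalCovering d G pr) (g : G) (z : Z) :
    MDifferentiableAt (𝓡 d) (𝓡 d) (fun z : Z => g • z) z :=
  (hpr.smooth g z).mdifferentiableAt (by simp)

/-- the action on vectors of the model space -/
def pu (g : G) (z : Z) (u : E d) : E d := push (d := d) g z u

theorem dp_pu {pr : Z → X} (hpr : NormalCovering d G pr) (g : G) (z : Z) (u : E d) :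
    dp pr (g • z) (pu g z u) = dp pr z u := by
  have h1 := mfderiv_comp z (mdiffPr hpr.diffeo (g • z)) (mdiffG hpr g z)
  have h2 : pr ∘ (fun z : Z => g • z) = pr := funext fun z => pr_smul hpr g z
  rw [h2] at h1
  exact (congrArg (fun L : E d →L[ℝ] E d => L u) h1).symm

theorem size_pu {pr : Z → X} (hpr : NormalCovering d G pr) (g : G) (z₀ z : Z) (u : E d) :
    size (d := d) pr (g • z₀) (g • z) (pu g z u) = size (d := d) pr z₀ z u := by
  rw [size_eq, size_eq, dp_pu hpr, pr_smul hpr, pr_smul hpr]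

theorem pu_mul {pr : Z → X} (hpr : NormalCovering d G pr) (g h : G) (z : Z) (u : E d) :
    pu (g * h) z u = pu g (h • z) (pu h z u) := by
  have h1 := mfderiv_comp z (mdiffG hpr g (h • z)) (mdiffG hpr h z)
  have h2 : (fun z : Z => g • z) ∘ (fun z : Z => h • z) = fun z : Z => (g * h) • z :=
    funext fun z => (mul_smul g h z).symm
  rw [h2] at h1
  exact congrArg (fun L : E d →L[ℝ] E d => L u) h1

theorem pu_one (z : Z) (u : E d) : pu (1 : G) z u = u := by
  have h2 : (fun z : Z => (1 : G) • z) = id := funext fun z => one_smul G z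
  have h1 : (mfderiv (𝓡 d) (𝓡 d) (fun z : Z => (1 : G) • z) z : E d →L[ℝ] E d) =
      mfderiv (𝓡 d) (𝓡 d) (id : Z → Z) z := by rw [h2]
  rw [mfderiv_id] at h1
  exact congrArg (fun L : E d →L[ℝ] E d => L u) h1

/-- the value of a one-form -/
def e1 (b : Form d Z 1) (z : Z) (u : E d) : ℝ := b z ![u]

/-- Asymptotic invariance under a generating set implies asymptotic invariance under the
group. -/
theorem asymp_all {pr : Z → X} (hpr : NormalCovering d G pr) {S : Set G}
    (hS : Submonoid.closure S = ⊤) {b : ℕ → Form d Z 1} (h : AsympInvariant S pr b) :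
    AsympInvariant (univ : Set G) pr b := by
  constructor
  · intro g _
    have hg : g ∈ Submonoid.closure S := by rw [hS]; trivial
    induction hg using Submonoid.closure_induction with
    | mem g hg => exact h.bdd g hg
    | one =>
      intro z₀
      refine ⟨univ, univ_mem, 0, Eventually.of_forall fun n z _ u => ?_⟩
      have h1 : e1 (b n) ((1 : G) • z) (pu (1 : G) z u) = e1 (b n) z u := by
        rw [pu_one, one_smul]
      have h2 : |e1 (b n) ((1 : G) • z) (pu (1 : G) z u) - e1 (b n) z u| ≤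
          0 * size (d := d) pr z₀ z u := by
        rw [h1, sub_self, abs_zero, zero_mul]
      exact h2
    | mul g h _ _ ihg ihh =>
      intro z₀
      obtain ⟨N₁, hN₁, A₁, h1⟩ := ihg (mem_univ _) (h • z₀)
      obtain ⟨N₂, hN₂, A₂, h2⟩ := ihh (mem_univ _) z₀
      have hc : ContinuousAt (fun z : Z => h • z) z₀ := (hpr.smooth h).continuous.continuousAt
      refine ⟨N₂ ∩ (fun z : Z => h • z) ⁻¹' N₁, inter_mem hN₂ (hc hN₁), A₁ + A₂, ?_⟩
      filter_upwards [h1, h2] with n h1 h2 z hz u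
      have h3 : |e1 (b n) (g • (h • z)) (pu g (h • z) (pu h z u)) -
          e1 (b n) (h • z) (pu h z u)| ≤
          A₁ * size (d := d) pr (h • z₀) (h • z) (pu h z u) := h1 _ hz.2 _
      have h4 : |e1 (b n) (h • z) (pu h z u) - e1 (b n) z u| ≤ A₂ * size (d := d) pr z₀ z u :=
        h2 z hz.1 u
      rw [size_pu hpr] at h3
      have h5 : e1 (b n) ((g * h) • z) (pu (g * h) z u) =
          e1 (b n) (g • (h • z)) (pu g (h • z) (pu h z u)) := by
        rw [pu_mul hpr, mul_smul]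
      have h6 : |e1 (b n) ((g * h) • z) (pu (g * h) z u) - e1 (b n) z u| ≤
          (A₁ + A₂) * size (d := d) pr z₀ z u := by
        rw [h5]
        refine (abs_sub_le _ (e1 (b n) (h • z) (pu h z u)) _).trans ?_
        linarith
      exact h6
  · intro g _
    have hg : g ∈ Submonoid.closure S := by rw [hS]; trivial
    induction hg using Submonoid.closure_induction with
    | mem g hg => exact h.lim g hg
    | one =>
      intro z u
      have h1 : ∀ n, e1 (b n) ((1 : G) • z) (pu (1 : G) z u) - e1 (b n) z u = 0 := by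
        intro n
        rw [pu_one, one_smul, sub_self]
      have h2 : Tendsto (fun n => e1 (b n) ((1 : G) • z) (pu (1 : G) z u) - e1 (b n) z u)
          atTop (𝓝 0) := by
        simp only [h1]
        exact tendsto_const_nhds
      exact h2
    | mul g h _ _ ihg ihh =>
      intro z u
      have h3 : Tendsto (fun n => e1 (b n) (g • (h • z)) (pu g (h • z) (pu h z u)) -
          e1 (b n) (h • z) (pu h z u)) atTop (𝓝 0) := ihg (mem_univ _) (h • z) (pu h z u : E d)
      have h4 : Tendsto (fun n => e1 (b n) (h • z) (pu h z u) - e1 (b n) z u) atTop (𝓝 0) :=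
        ihh (mem_univ _) z u
      have h5 := h3.add h4
      rw [add_zero] at h5
      have h6 : Tendsto (fun n => e1 (b n) ((g * h) • z) (pu (g * h) z u) - e1 (b n) z u)
          atTop (𝓝 0) := by
        refine h5.congr fun n => ?_
        rw [pu_mul hpr, mul_smul]
        ring
      exact h6

/-- Two sections differ by an element of the group near a point. -/
theorem sec_near {pr : Z → X} (hpr : NormalCovering d G pr) (t t₀ : Sec (d := d) pr) {x₀ : X}
    (hx : x₀ ∈ t.V) (hx₀ : x₀ ∈ t₀.V) : ∃ g : G, ∀ᶠ x in 𝓝 x₀, x ∈ t.V ∧ x ∈ t₀.V ∧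
      t.s x = g • t₀.s x ∧ ∀ v : E d, ds t x v = pu g (t₀.s x) (ds t₀ x v) := by
  have h0 : pr (t₀.s x₀) = pr (t.s x₀) := by rw [t₀.sec x₀ hx₀, t.sec x₀ hx]
  obtain ⟨g, hg⟩ := (hpr.orbits _ _).1 h0
  have hc : ContinuousAt (fun x => g • t₀.s x) x₀ := by
    have h1 : ContinuousAt t₀.s x₀ := (t₀.mdiff hx₀).continuousAt
    have h2 : ContinuousAt (fun z : Z => g • z) (t₀.s x₀) :=
      (hpr.smooth g).continuous.continuousAt
    exact ContinuousAt.comp (g := fun z : Z => g • z) h2 h1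
  have hW : ∀ᶠ x in 𝓝 x₀, g • t₀.s x ∈ t.W := by
    refine hc.eventually (t.openW.mem_nhds ?_)
    show g • t₀.s x₀ ∈ t.W
    rw [hg]
    exact t.maps x₀ hx
  have hev : ∀ᶠ x in 𝓝 x₀, x ∈ t.V ∧ x ∈ t₀.V ∧ t.s x = g • t₀.s x := by
    filter_upwards [hW, t.openV.mem_nhds hx, t₀.openV.mem_nhds hx₀] with x h1 h2 h3
    refine ⟨h2, h3, ?_⟩
    have h4 := t.inv _ h1
    rw [pr_smul hpr, t₀.sec x h3] at h4
    exact h4
  refine ⟨g, ?_⟩
  filter_upwards [hev, hev.eventually_nhds] with x hx1 hx2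
  refine ⟨hx1.1, hx1.2.1, hx1.2.2, fun v => ?_⟩
  have h5 : t.s =ᶠ[𝓝 x] (fun z : Z => g • z) ∘ t₀.s := by
    filter_upwards [hx2] with y hy using hy.2.2
  have h6 := mfderiv_comp x (mdiffG hpr g (t₀.s x)) (t₀.mdiff hx1.2.1)
  have h7 : (mfderiv (𝓡 d) (𝓡 d) t.s x : E d →L[ℝ] E d) =
      mfderiv (𝓡 d) (𝓡 d) ((fun z : Z => g • z) ∘ t₀.s) x := h5.mfderiv_eq
  exact (congrArg (fun L : E d →L[ℝ] E d => L v) h7).trans
    (congrArg (fun L : E d →L[ℝ] E d => L v) h6)

end

end Pool.Agent.H708.SYB
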